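import Pool.Agent.Helper37.DY.Ineq

/-!
# GAP2 with a label at least one at `t`: the real inequalities, odd index (MP_d13a5e_al)
-/

set_option autoImplicit false

namespace Pool.Agent.Helper37.DY

variable {a s e q v y : ℝ}

/-- the coordinates of the steeper root, `j` odd -/
structure Odd (a s q v y : ℝ) : Prop where
  q1 : 1 ≤ q
  v1 : 1 ≤ v
  y0 : 0 ≤ y
  nrm : 4 * y ^ 2 = (s ^ 2 - 4) * q ^ 2 + 2 * (s * a * q * v) - (4 - a ^ 2) * v ^ 2 + 4

/-- the corner value -/
noncomputable def Xo (a s e q v y τ : ℝ) : ℝ :=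
  (1 - s * τ / 2) * q + v * ((1 - s * τ / 2) * a / (2 + s) + (s * τ - 1 - e) / a) + τ * y

theorem Xo_lin (a s e q v y τ : ℝ) : Xo a s e q v y τ =
    (q + v * (a / (2 + s) + (-1 - e) / a)) +
      (-(s / 2) * q + v * (-(s / 2) * a / (2 + s) + s / a) + y) * τ := by
  unfold Xo
  ring

theorem Xo_ge {t0 t1 t c : ℝ} (h0 : c ≤ Xo a s e q v y t0) (h1 : c ≤ Xo a s e q v y t1) (ha : t0 ≤ t)
    (hb : t ≤ t1) : c ≤ Xo a s e q v y t := by
  rw [Xo_lin] at h0 h1 ⊢
  exact lin h0 h1 ha hb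

theorem Odd.y2 (h : Odd a s q v y) (hs : 2 ≤ s) (hv : (4 - a ^ 2) * v ≤ 2 * s * a * q) : s / 2 ≤ y := by
  have h1 := h.nrm
  have h3 : (s ^ 2 - 4) * 1 ≤ (s ^ 2 - 4) * q ^ 2 := by
    apply mul_le_mul_of_nonneg_left _ (by nlinarith only [hs])
    have := h.q1
    nlinarith only [this]
  have h4 := mul_le_mul_of_nonneg_right hv (by linarith only [h.v1] : 0 ≤ v)
  by_contra hcon
  rw [not_le] at hcon
  have := h.y0
  nlinarith only [h1, h3, h4, hcon, this]

/-- `s ≥ 2`, upper end, if `y ≥ s / 2` -/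
theorem Odd.two (h : Odd a s q v y) (hE : Ew a s e) (ha : 0 < a) (hs : 2 ≤ s) (hy : s / 2 ≤ y) :
    1 ≤ Xo a s e q v y (2 / s) := by
  have hs0 : 0 < s := by linarith only [hs]
  have h1 : Xo a s e q v y (2 / s) = v * (1 - e) / a + 2 * y / s := by
    unfold Xo
    field_simp
    ring
  rw [h1]
  have h4 : 0 ≤ v * (1 - e) / a :=
    div_nonneg (mul_nonneg (by linarith only [h.v1]) (by linarith only [hE.e1])) ha.le
  have h5 : 1 ≤ 2 * y / s := by
    rw [le_div_iff₀ hs0]
    linarith only [hy]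
  linarith only [h4, h5]

/-- `a ≥ 2`, lower end -/
theorem Odd.loA (h : Odd a s q v y) (hE : Ew a s e) (ha : 2 ≤ a) (hs : 1 ≤ s) :
    1 ≤ Xo a s e q v y (1 / (s + 1)) := by
  have hs1 : 0 < s + 1 := by linarith only [hs]
  have hs2 : 0 < 2 + s := by linarith only [hs1]
  have ha0 : 0 < a := by linarith only [ha]
  have hq := h.q1
  have hv := h.v1
  have h1 : (s + 1) * Xo a s e q v y (1 / (s + 1)) =
      (1 + s / 2) * q + y + v * ((a ^ 2 - 2) / 2 - (s + 1) * e) / a := by
    unfold Xo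
    field_simp
    ring
  -- `(s + 1) e ≤ 1`
  have he : (s + 1) * e ≤ 1 := by
    have h2 : e * (1 + s ^ 2) ≤ 1 := hE.le_of (by nlinarith only [ha])
    have h3 : e * (s + 1) ≤ e * (1 + s ^ 2) := mul_le_mul_of_nonneg_left (by nlinarith only [hs]) hE.e0.le
    linarith only [h2, h3]
  have h2 : 0 ≤ v * ((a ^ 2 - 2) / 2 - (s + 1) * e) / a := by
    apply div_nonneg _ ha0.le
    apply mul_nonneg (by linarith only [hv])
    nlinarith only [ha, he]
  have h3 : s + 1 ≤ (1 + s / 2) * q + y := by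
    have h30 : 1 + s / 2 ≤ (1 + s / 2) * q := by nlinarith only [hs2, hq]
    rcases le_or_gt 2 s with h4 | h4
    · have h5 := h.y2 h4 (by
        have h6 : (4 - a ^ 2) * v ≤ 0 := mul_nonpos_of_nonpos_of_nonneg (by nlinarith only [ha]) (by linarith only [hv])
        have h7 : 0 ≤ 2 * s * a * q := by positivity
        linarith only [h6, h7])
      linarith only [h30, h5]
    · rcases le_or_gt (s / 2) y with h5 | h5
      · linarith only [h30, h5]
      · have h6 := h.nrm
        have h7 : y ^ 2 < (s / 2) ^ 2 := by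
          have := h.y0
          nlinarith only [h5, this]
        have h8 : 0 ≤ (a ^ 2 - 4) * v ^ 2 := mul_nonneg (by nlinarith only [ha]) (sq_nonneg v)
        have h9 : s * 2 * q * 1 ≤ s * a * q * v := by
          apply mul_le_mul _ hv (by norm_num) (by positivity)
          apply mul_le_mul_of_nonneg_right _ (by linarith only [hq])
          exact mul_le_mul_of_nonneg_left ha (by linarith only [hs])
        have h10 : 4 * s * q < (4 - s ^ 2) * q * q := by nlinarith only [hs2, h4, h6, h7, h8, h9]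
        have h11 : 4 * s < (4 - s ^ 2) * q := lt_of_mul_lt_mul_right h10 (by linarith only [hq])
        have h12 : (s + 1) * (2 - s) < (1 + s / 2) * q * (2 - s) := by nlinarith only [hq, h30, h6, h7, h8, h9]
        exact (lt_of_mul_lt_mul_right h12 (by linarith only [h4])).le.trans (by linarith only [h.y0])
  have h4 : (s + 1) * 1 ≤ (s + 1) * Xo a s e q v y (1 / (s + 1)) := by
    rw [h1]
    linarith only [h2, h3]
  exact le_of_mul_le_mul_left h4 hs1

/-- `a ≥ 2`, `s < 2`, upper end -/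
theorem Odd.hiA (h : Odd a s q v y) (hE : Ew a s e) (ha : 2 ≤ a) (hs : 1 ≤ s) (hs2 : s < 2) :
    1 < Xo a s e q v y (s / 2) := by
  have ha0 : 0 < a := by linarith only [ha]
  have hq := h.q1
  have hv := h.v1
  have h1 : Xo a s e q v y (s / 2) = (1 - s ^ 2 / 4) * q +
      v * (a ^ 2 * (2 - s) / 4 + s ^ 2 / 2 - 1 - e) / a + s / 2 * y := by
    unfold Xo
    have : 2 + s ≠ 0 := by linarith only [hs]
    field_simp
    ring
  have he : e ≤ 1 / 2 := by
    have h2 : e * 2 ≤ 1 := hE.le_of (by nlinarith only [ha, hs])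
    linarith only [h2]
  have h2 : 0 ≤ v * (a ^ 2 * (2 - s) / 4 + s ^ 2 / 2 - 1 - e) / a := by
    apply div_nonneg _ ha0.le
    apply mul_nonneg (by linarith only [hv])
    have h3 : 4 * (2 - s) ≤ a ^ 2 * (2 - s) := mul_le_mul_of_nonneg_right (by nlinarith only [ha]) (by linarith only [hs2])
    nlinarith only [he, h3, sq_nonneg (s - 1)]
  rw [h1]
  have hy0 := h.y0
  have h3 : 0 ≤ s / 2 * y := mul_nonneg (by linarith only [hs]) hy0
  rcases lt_or_ge 1 ((1 - s ^ 2 / 4) * q) with h4 | h4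
  · linarith only [h2, h3, h4]
  · have h6 := h.nrm
    have h8 : 0 ≤ (a ^ 2 - 4) * v ^ 2 := mul_nonneg (by nlinarith only [ha]) (sq_nonneg v)
    have h9 : s * 2 * q * 1 ≤ s * a * q * v := by
      apply mul_le_mul _ hv (by norm_num) (by positivity)
      apply mul_le_mul_of_nonneg_right _ (by linarith only [hq])
      exact mul_le_mul_of_nonneg_left ha (by linarith only [hs])
    have h10 : (1 - s ^ 2 / 4) * q * q ≤ 1 * q := mul_le_mul_of_nonneg_right h4 (by linarith only [hq])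
    have h11 : 1 * q ≤ s * q := mul_le_mul_of_nonneg_right hs (by linarith only [hq])
    have h12 : 1 ≤ y ^ 2 := by nlinarith only [h6, h8, h9, h10, h11]
    have h13 : 1 ≤ y := by nlinarith only [hy0, h12]
    have h14 : s / 2 * 1 ≤ s / 2 * y := mul_le_mul_of_nonneg_left h13 (by linarith only [hs])
    have h15 : (1 - s ^ 2 / 4) * 1 ≤ (1 - s ^ 2 / 4) * q := by
      apply mul_le_mul_of_nonneg_left hq
      nlinarith only [hs, hs2]
    nlinarith only [hq, h2, h3, h6, h8, h9, h11, h14, h15]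

/-- the bound for `e`, `a^2 ≥ 2`, `s ≥ 2` -/
theorem Ew.le_C (hE : Ew a s e) (ha : 2 ≤ a ^ 2) (hs : 2 ≤ s) : e * s ^ 2 ≤ 1073 / 1000 := by
  have h0 := hE.e0
  have hss : 4 ≤ s ^ 2 := by nlinarith only [hs]
  have h1 : e * 3 ≤ 1 := hE.le_of (by nlinarith only [ha, hs])
  have h2 : s ^ 2 * e ≤ (a ^ 2 + s ^ 2 - 2) * e := mul_le_mul_of_nonneg_right (by linarith only [ha]) h0.le
  have h3 : s ^ 2 * e ≤ 1 + e ^ 2 := by linarith only [h2, hE.eq]
  have h4 : 4 * e ≤ s ^ 2 * e := mul_le_mul_of_nonneg_right hss h0.le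
  have h5 : e ^ 2 ≤ 1 / 9 := by nlinarith only [h0, h1]
  have h6 : e ≤ 278 / 1000 := by linarith only [h3, h4, h5]
  have h7 : e ^ 2 ≤ 773 / 10000 := by nlinarith only [h0, h6]
  have h8 : e ≤ 2694 / 10000 := by linarith only [h3, h4, h7]
  have h9 : e ^ 2 ≤ 73 / 1000 := by nlinarith only [h0, h8]
  linarith only [h3, h9]

/-- `a^2 ≥ 2`, `a < 2`, `s ≥ 2`, `τ = τ_5` -/
theorem Odd.loC (h : Odd a s q v y) (hE : Ew a s e) (ha0 : 0 < a) (ha : 2 ≤ a ^ 2) (ha2 : a < 2)
    (hs : 2 ≤ s) (hy : (s + 1) / (s ^ 2 + s - 1) ≤ y) :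
    1 ≤ Xo a s e q v y ((s + 1) / (s ^ 2 + s - 1)) := by
  have hq := h.q1
  have hv := h.v1
  have hy0 := h.y0
  have hD : 0 < s ^ 2 + s - 1 := by nlinarith only [hs]
  obtain ⟨D, hDD⟩ : ∃ D, D = s ^ 2 + s - 1 := ⟨_, rfl⟩
  rw [← hDD] at hy hD ⊢
  have hs2 : 0 < 2 + s := by linarith only [hs]
  have he := hE.le_C ha hs
  obtain ⟨T, hT⟩ : ∃ T, T = (s + 1) / D := ⟨_, rfl⟩
  have hTD : T * D = s + 1 := by rw [hT]; field_simp
  rw [← hT] at hy ⊢
  -- `1 - s T / 2`
  have h1 : 1 - s * T / 2 = (s + 2) * (s - 1) / (2 * D) := by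
    rw [hT]
    field_simp
    rw [hDD]
    ring
  -- `a G`
  obtain ⟨K, hK⟩ : ∃ K, K = a ^ 2 * (s - 1) / (2 * D) + 1 / D - e := ⟨_, rfl⟩
  have h2 : (1 - s * T / 2) * a / (2 + s) + (s * T - 1 - e) / a = K / a := by
    rw [h1, hK, hT]
    field_simp
    rw [hDD]
    ring
  have hK1 : s / D - e ≤ K := by
    rw [hK]
    have h3 : 2 * (s - 1) / (2 * D) ≤ a ^ 2 * (s - 1) / (2 * D) := by
      apply div_le_div_of_nonneg_right _ (by linarith only [hD])
      exact mul_le_mul_of_nonneg_right ha (by linarith only [hs])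
    have h4 : 2 * (s - 1) / (2 * D) + 1 / D = s / D := by
      field_simp
      ring
    linarith only [h3, h4]
  have hK0 : 0 ≤ s / D - e := by
    rw [sub_nonneg, le_div_iff₀ hD]
    have h3 : e * D * s ^ 2 ≤ s * s ^ 2 := by
      have h4 : e * s ^ 2 * D ≤ 1073 / 1000 * D := mul_le_mul_of_nonneg_right he hD.le
      have h5 : 1073 / 1000 * D ≤ s * s ^ 2 := by
        rw [hDD]
        nlinarith only [mul_nonneg (by linarith only [hs] : 0 ≤ s - 2) (sq_nonneg s)]
      linarith only [h4, h5]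
    exact le_of_mul_le_mul_right h3 (by positivity)
  have hT0 : 0 ≤ T := by
    rw [hT]
    exact div_nonneg (by linarith only [hs]) hD.le
  have hA0 : 0 ≤ 1 - s * T / 2 := by
    rw [h1]
    exact div_nonneg (mul_nonneg (by linarith only [hs2]) (by linarith only [hs])) (by linarith only [hD])
  have hA1 : 1 - s * T / 2 ≤ (1 - s * T / 2) * q := by nlinarith only [hq, hA0]
  have hva : v * (K / a) = v / a * K := by ring
  unfold Xo
  rw [h2, hva]
  rcases le_total ((4 - a ^ 2) * v) (2 * s * a * q) with h5 | h5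
  · have h6 := h.y2 hs h5
    have h7 : T * (s / 2) ≤ T * y := mul_le_mul_of_nonneg_left h6 hT0
    have h8 : 0 ≤ v / a * K := mul_nonneg (div_nonneg (by linarith only [hv]) ha0.le) (by linarith only [hK1, hK0])
    linarith only [hA1, h7, h8]
  · -- `v / a ≥ s`
    have h6 : s ≤ v / a := by
      rw [le_div_iff₀ ha0]
      have h7 : (4 - a ^ 2) * v ≤ 2 * v := mul_le_mul_of_nonneg_right (by linarith only [ha]) (by linarith only [hv])
      have h8 : 2 * s * a * 1 ≤ 2 * s * a * q := mul_le_mul_of_nonneg_left hq (by positivity)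
      linarith only [h5, h7, h8]
    have h7 : s * (s / D - e) ≤ v / a * K := by
      apply mul_le_mul h6 hK1 hK0 (by linarith only [hs, h6])
    have h8 : T * T ≤ T * y := mul_le_mul_of_nonneg_left hy hT0
    have h9 : 0 ≤ s * (s / D - e) + T * T - s * T / 2 := by
      have h10 : 0 ≤ (s * (s / D - e) + T * T - s * T / 2) * (2 * s * D ^ 2) := by
        have h11 : (s * (s / D - e) + T * T - s * T / 2) * (2 * s * D ^ 2) =
            2 * s ^ 3 * D - 2 * (e * s ^ 2) * D ^ 2 + 2 * s * (T * D) ^ 2 - s ^ 2 * (T * D) * D := by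
          field_simp
        rw [h11, hTD]
        have h12 : (e * s ^ 2) * D ^ 2 ≤ 1073 / 1000 * D ^ 2 := mul_le_mul_of_nonneg_right he (sq_nonneg D)
        have h13 : 0 ≤ 2 * s ^ 3 * D - 2 * (1073 / 1000 * D ^ 2) + 2 * s * (s + 1) ^ 2 - s ^ 2 * (s + 1) * D := by
          rw [hDD]
          obtain ⟨z, hz⟩ : ∃ z, z = s - 2 := ⟨_, rfl⟩
          have hz0 : 0 ≤ z := by linarith only [hs, hz]
          have hsz : s = z + 2 := by linarith only [hz]
          rw [hsz]
          have h14 : 2 * (z + 2) ^ 3 * ((z + 2) ^ 2 + (z + 2) - 1) -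
              2 * (1073 / 1000 * ((z + 2) ^ 2 + (z + 2) - 1) ^ 2) + 2 * (z + 2) * ((z + 2) + 1) ^ 2 -
              (z + 2) ^ 2 * ((z + 2) + 1) * ((z + 2) ^ 2 + (z + 2) - 1) =
              (z ^ 5 + 3927 / 500 * z ^ 4 + 927 / 50 * z ^ 3) +
                (989 / 100 * z ^ 2 - 53 / 10 * z + 47 / 20) := by
            ring
          rw [h14]
          have h15 : 0 ≤ z ^ 5 + 3927 / 500 * z ^ 4 + 927 / 50 * z ^ 3 := by positivity
          have h16 : 0 ≤ 989 / 100 * z ^ 2 - 53 / 10 * z + 47 / 20 := by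
            nlinarith only [sq_nonneg (z - 1 / 4)]
          linarith only [h15, h16]
        linarith only [h12, h13]
      exact nonneg_of_mul_nonneg_left h10 (by positivity)
    linarith only [hA1, h7, h8, h9]

/-- `a^2 ≥ 2`, `a < 2`, `s ≥ 2`, upper end -/
theorem Odd.hiC (h : Odd a s q v y) (hE : Ew a s e) (ha0 : 0 < a) (ha : 2 ≤ a ^ 2) (hs : 2 ≤ s) :
    1 ≤ Xo a s e q v y (2 / s) := by
  have hq := h.q1
  have hv := h.v1
  rcases le_total ((4 - a ^ 2) * v) (2 * s * a * q) with h5 | h5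
  · exact h.two hE ha0 hs (h.y2 hs h5)
  · have hs0 : 0 < s := by linarith only [hs]
    have h1 : Xo a s e q v y (2 / s) = v / a * (1 - e) + 2 * y / s := by
      unfold Xo
      field_simp
      ring
    have h6 : s ≤ v / a := by
      rw [le_div_iff₀ ha0]
      have h7 : (4 - a ^ 2) * v ≤ 2 * v := mul_le_mul_of_nonneg_right (by linarith only [ha]) (by linarith only [hv])
      have h8 : 2 * s * a * 1 ≤ 2 * s * a * q := mul_le_mul_of_nonneg_left hq (by positivity)
      linarith only [h5, h7, h8]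
    have he : e * 3 ≤ 1 := hE.le_of (by nlinarith only [ha, hs])
    have h7 : s * (1 - e) ≤ v / a * (1 - e) := mul_le_mul_of_nonneg_right h6 (by linarith only [he])
    have h8 : 2 * (1 - e) ≤ s * (1 - e) := mul_le_mul_of_nonneg_right hs (by linarith only [he])
    have h9 : 0 ≤ 2 * y / s := div_nonneg (by linarith only [h.y0]) hs0.le
    rw [h1]
    linarith only [he, h7, h8, h9]

section one

variable {M N : ℝ}

/-- the additional coordinates for `a = 1` -/
structure One (s q v y M N : ℝ) : Prop where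
  o : Odd 1 s q v y
  hM : M = s * q - v
  hN : y = M / 2 - N
  N0 : N = 0 ∨ 1 ≤ N
  z : N = 0 → s * M - q = 0 ∨ 1 ≤ s * M - q

theorem One.nrm (h : One s q v y M N) : M ^ 2 + N ^ 2 + q ^ 2 - M * N - s * q * M = 1 := by
  have h1 := h.o.nrm
  rw [h.hN] at h1
  have h2 : v = s * q - M := by linarith only [h.hM]
  rw [h2] at h1
  nlinarith only [h1]

theorem Ew.one_le (hE : Ew 1 s e) (hs : 2 ≤ s) : e * (s ^ 2 - 3 / 2) ≤ 1 := by
  have h0 := hE.e0
  have h1 : e * 2 ≤ 1 := hE.le_of (by nlinarith only [hs])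
  have h2 := hE.eq
  nlinarith only [h0, h1, h2]

/-- `a = 1`, `τ = τ_5` -/
theorem One.lo (h : One s q v y M N) (hE : Ew 1 s e) (hs : 2 ≤ s)
    (hy : (s + 1) / (s ^ 2 + s - 1) ≤ y) : 1 ≤ Xo 1 s e q v y ((s + 1) / (s ^ 2 + s - 1)) := by
  have hq := h.o.q1
  have hv := h.o.v1
  have hn := h.nrm
  have he0 := hE.e0
  have he := hE.one_le hs
  have hD : 0 < s ^ 2 + s - 1 := by nlinarith only [hs]
  obtain ⟨D, hDD⟩ : ∃ D, D = s ^ 2 + s - 1 := ⟨_, rfl⟩
  rw [← hDD] at hy hD ⊢
  obtain ⟨T, hT⟩ : ∃ T, T = (s + 1) / D := ⟨_, rfl⟩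
  have hTD : T * D = s + 1 := by rw [hT]; field_simp
  rw [← hT] at hy ⊢
  have hT0 : 0 < T := by
    rw [hT]
    exact div_pos (by linarith only [hs]) hD
  have hX : Xo 1 s e q v y T = q * (1 - s * e) + M * e - T * N := by
    have h1 : (1 - s * T / 2) * 1 / (2 + s) + (s * T - 1 - e) / 1 = T / 2 - e := by
      rw [hT]
      have : 2 + s ≠ 0 := by linarith only [hs]
      field_simp
      rw [hDD]
      ring
    unfold Xo
    rw [h1]
    have h2 : v = s * q - M := by linarith only [h.hM]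
    rw [h2, h.hN]
    ring
  rw [hX]
  -- `s e ≤ 1`
  have hse : s * e ≤ 1 := by
    have h1 : s * e ≤ (s ^ 2 - 3 / 2) * e := mul_le_mul_of_nonneg_right (by nlinarith only [hs]) he0.le
    linarith only [he, h1]
  rcases h.N0 with hN | hN
  · have hM0 : 0 < M := by linarith only [hy, hT0, hN, h.hN]
    rcases h.z hN with hz | hz
    · have h1 : q = s * M := by linarith only [hz]
      have h2 : M = 1 := by
        rw [hN, h1] at hn
        have h3 : M ^ 2 = 1 := by linarith only [hn]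
        nlinarith only [hM0, h3]
      have h4 : s ^ 2 - s - 3 ≥ 0 := by
        have h5 : T ≤ 1 / 2 := by linarith only [hy, hN, h2, h.hN]
        have h6 : T * D ≤ 1 / 2 * D := mul_le_mul_of_nonneg_right h5 hD.le
        rw [hTD, hDD] at h6
        linarith only [h6]
      have h5 : 23 / 10 ≤ s := by nlinarith only [hs, h4]
      rw [hN, h1, h2]
      have h6 := hE.eq
      have h7 : e * (37 / 10) ≤ e * (s ^ 2 - 3 / 2) := mul_le_mul_of_nonneg_left (by nlinarith only [h5]) he0.le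
      nlinarith only [he, h5, h6]
    · -- `M ≥ s`
      have h1 : 0 ≤ (q - 1) * (s * M - q - 1) := mul_nonneg (by linarith only [hq]) (by linarith only [hz])
      have h2 : s * M ≤ M * M := by
        rw [hN] at hn
        nlinarith only [hn, h1]
      have h3 : s ≤ M := le_of_mul_le_mul_right h2 hM0
      rw [hN]
      have h4 : M + 1 ≤ s * q := by linarith only [hv, h.hM]
      -- multiply by `s`
      have h5 : s * 1 ≤ s * (q * (1 - s * e) + M * e - T * 0) := by
        have h6 : (M + 1) * (1 - s * e) ≤ s * q * (1 - s * e) :=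
          mul_le_mul_of_nonneg_right h4 (by linarith only [hse])
        nlinarith only [hse, h3, h6]
      exact le_of_mul_le_mul_left h5 (by linarith only [hs])
  · -- `q ≥ N + 1`
    have hM2 : 2 * N + 2 * T ≤ M := by linarith only [hy, h.hN]
    have h1 : (N + 1) ^ 2 ≤ q ^ 2 := by
      have h2 : q ^ 2 = 1 + N * (M - N) + M * v := by
        have h3 : v = s * q - M := by linarith only [h.hM]
        rw [h3]
        linarith only [hn]
      rw [h2]
      nlinarith only [hn, hT0, hN, hM2, mul_nonneg (by linarith only [hN] : 0 ≤ N) (by linarith only [hv] : 0 ≤ v - 1)]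
    have h2 : N + 1 ≤ q := by
      by_contra hcon
      rw [not_le] at hcon
      nlinarith only [hq, h1, hcon]
    have h3 : (N + 1) * (1 - s * e) ≤ q * (1 - s * e) := mul_le_mul_of_nonneg_right h2 (by linarith only [hse])
    have h4 : (2 * N + 2 * T) * e ≤ M * e := mul_le_mul_of_nonneg_right hM2 he0.le
    -- the coefficient of `N` is nonnegative and the sum is at least one
    have hs32 : 0 < s ^ 2 - 3 / 2 := by nlinarith only [hs]
    have h5 : 0 ≤ 1 - T - 2 * e * (s - 1 - T) := by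
      have h6 : 0 ≤ (1 - T - 2 * e * (s - 1 - T)) * (D * (s ^ 2 - 3 / 2)) := by
        have h7 : (1 - T - 2 * e * (s - 1 - T)) * (D * (s ^ 2 - 3 / 2)) =
            (D - T * D) * (s ^ 2 - 3 / 2) - 2 * (e * (s ^ 2 - 3 / 2)) * ((s - 1) * D - T * D) := by
          ring
        rw [h7, hTD]
        have h8 : 0 ≤ (s - 1) * D - (s + 1) := by
          rw [hDD]
          nlinarith only [mul_nonneg (by linarith only [hs] : 0 ≤ s - 2) (sq_nonneg s)]
        have h9 : e * (s ^ 2 - 3 / 2) * ((s - 1) * D - (s + 1)) ≤ 1 * ((s - 1) * D - (s + 1)) :=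
          mul_le_mul_of_nonneg_right he h8
        have h10 : 0 ≤ (D - (s + 1)) * (s ^ 2 - 3 / 2) - 2 * ((s - 1) * D - (s + 1)) := by
          rw [hDD]
          obtain ⟨z, hz⟩ : ∃ z, z = s - 2 := ⟨_, rfl⟩
          have hz0 : 0 ≤ z := by linarith only [hs, hz]
          have hsz : s = z + 2 := by linarith only [hz]
          rw [hsz]
          have h14 : ((z + 2) ^ 2 + (z + 2) - 1 - (z + 2 + 1)) * ((z + 2) ^ 2 - 3 / 2) -
              2 * ((z + 2 - 1) * ((z + 2) ^ 2 + (z + 2) - 1) - (z + 2 + 1)) =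
              z ^ 4 + 6 * z ^ 3 + 17 / 2 * z ^ 2 + 1 := by
            ring
          rw [h14]
          positivity
        linarith only [h9, h10]
      exact nonneg_of_mul_nonneg_left h6 (mul_pos hD hs32)
    have h6 : 0 ≤ 1 - s * e + 2 * e - T := by
      have h7 : T ≤ 3 / 5 := by
        rw [hT, div_le_iff₀ hD, hDD]
        nlinarith only [hs]
      have h8 : (s - 2) * e ≤ 1 / 4 := by
        have h9 : (s - 2) * 4 ≤ s ^ 2 - 3 / 2 := by nlinarith only [sq_nonneg (s - 2)]
        nlinarith only [he0, he]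
      linarith only [h7, h8]
    have h7 : 0 ≤ (N - 1) * (1 - s * e + 2 * e - T) := mul_nonneg (by linarith only [hN]) h6
    nlinarith only [h3, h4, h5, h7]

/-- `a = 1`, upper end -/
theorem One.hi (h : One s q v y M N) (hE : Ew 1 s e) (hs : 2 ≤ s)
    (hy : (s + 1) / (s ^ 2 + s - 1) ≤ y) : 1 ≤ Xo 1 s e q v y (2 / s) := by
  have hv := h.o.v1
  have he0 := hE.e0
  have he := hE.one_le hs
  have hD : 0 < s ^ 2 + s - 1 := by nlinarith only [hs]
  have hs0 : 0 < s := by linarith only [hs]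
  have h1 : Xo 1 s e q v y (2 / s) = v * (1 - e) + 2 * y / s := by
    unfold Xo
    have : 2 + s ≠ 0 := by linarith only [hs0]
    field_simp
    ring
  have h2 : 1 * (1 - e) ≤ v * (1 - e) := mul_le_mul_of_nonneg_right hv (by linarith only [hE.e1])
  have h3 : e ≤ 2 * y / s := by
    rw [le_div_iff₀ hs0]
    have h4 : e * s ≤ 2 * ((s + 1) / (s ^ 2 + s - 1)) := by
      have h5 : 2 * ((s + 1) / (s ^ 2 + s - 1)) = 2 * (s + 1) / (s ^ 2 + s - 1) := by ring
      rw [h5, le_div_iff₀ hD]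
      have hs32 : 0 < s ^ 2 - 3 / 2 := by nlinarith only [hs]
      have h6 : e * s * (s ^ 2 + s - 1) * (s ^ 2 - 3 / 2) ≤ 2 * (s + 1) * (s ^ 2 - 3 / 2) := by
        have h7 : e * (s ^ 2 - 3 / 2) * (s * (s ^ 2 + s - 1)) ≤ 1 * (s * (s ^ 2 + s - 1)) :=
          mul_le_mul_of_nonneg_right he (by positivity)
        have h8 : 1 * (s * (s ^ 2 + s - 1)) ≤ 2 * (s + 1) * (s ^ 2 - 3 / 2) := by
          nlinarith only [hs32, mul_nonneg (by linarith only [hs] : 0 ≤ s - 2) (sq_nonneg s),
            mul_nonneg (by linarith only [hs] : 0 ≤ s - 2) (by linarith only [hs] : 0 ≤ s - 2)]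
        linarith only [h7, h8]
      exact le_of_mul_le_mul_right h6 hs32
    linarith only [hy, h4]
  rw [h1]
  linarith only [h2, h3]

end one

end Pool.Agent.Helper37.DY
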