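import Pool.Agent.Helper37.DY.Tau
import Pool.Agent.Helper37.DY.Ineq2

/-!
# GAP2 with a label at least one at `t`: the steeper root has a value larger than one (MP_d13a5e_al)

`T : Two b1 b2 0 R κ f gL xL yL g v y`: `(g, v, y)` are the coordinates of the steeper root.
-/

set_option autoImplicit false

namespace Pool.Agent.Helper37.DY

open _root_.DY (Z1 sq sq_zero sq_one sq_two sq_succ)
open Pool.Agent.Helper32.DY (Two fe fw fm bf z1_nonneg z1_one fe_z fe_n fe_r fe_mem)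
open Pool.Agent.Helper62.DY (RT)

/-- strict linear interpolation -/
theorem lin' {α β t0 t1 t c : ℝ} (h0 : c < α + β * t0) (h1 : c < α + β * t1) (ha : t0 ≤ t) (hb : t ≤ t1) :
    c < α + β * t := by
  rcases le_total 0 β with h | h
  · have := mul_le_mul_of_nonneg_left ha h
    linarith
  · have := mul_le_mul_of_nonpos_left hb h
    linarith

section

variable {b1 b2 : ℝ} {R : ℝ → ℝ → ℝ → Prop} {κ f gL xL yL g v y : ℝ}

theorem fw_odd (b1 : ℝ) {k : ℕ} (hk : k % 2 = 1) : fw b1 0 k = 0 := by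
  unfold fw
  rw [if_neg (by omega), mul_zero]

theorem fw_even (b1 : ℝ) {k : ℕ} (hk : k % 2 = 0) : fw b1 0 k = 2 * b1 := by
  unfold fw
  rw [if_pos hk]

variable (T : Two b1 b2 0 R κ f gL xL yL g v y)

include T

theorem two_D : 0 < y * xL - yL * v := by linarith [T.st]

/-- `B(x, d1) ≤ 0` -/
theorem two_v_le : v ≤ b1 * g := by
  have hn := T.h.n _ _ _ T.hy
  have hfx := T.fx
  have hfy := T.fy
  have hB := T.hB
  have hobt := T.obt
  have hD := two_D T
  have key : (y * xL - yL * v) * (v - b1 * g) = -yL + y * bf b1 b2 0 gL xL yL g v y +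
      f * (y * xL - yL * v) * (g - b1 * v - b2 * y) := by
    unfold bf
    linear_combination (g - b1 * v - b2 * y) * (yL * hfy - y * hfx) - yL * hn
  have h1 : y * bf b1 b2 0 gL xL yL g v y ≤ 0 :=
    mul_nonpos_of_nonneg_of_nonpos (by linarith [T.q2]) hB
  have h2 : f * (y * xL - yL * v) * (g - b1 * v - b2 * y) ≤ 0 :=
    mul_nonpos_of_nonneg_of_nonpos (mul_nonneg T.hf hD.le) (by linarith)
  have h3 : (y * xL - yL * v) * (v - b1 * g) ≤ 0 := by
    rw [key]
    linarith [T.p2]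
  by_contra hcon
  have := mul_pos hD (by linarith [not_le.1 hcon] : 0 < v - b1 * g)
  linarith

/-- `B(x, d2) > 0` -/
theorem two_y_gt : b2 * g < y := by
  have h1 := T.b_pos
  have h2 := T.obt
  have h3 : 0 ≤ κ * (2 * b1 * v + 2 * b2 * y - 2 * g) := mul_nonneg T.hκ.le (by linarith)
  linarith

theorem two_b1 : 1 ≤ 2 * b1 := by
  rcases T.h.b1z with h | h
  · exfalso
    obtain ⟨-, -, h3⟩ := T.w_pos 0
    have e1 : fw b1 0 0 = 2 * b1 := fw_even b1 rfl
    have e2 : fw b1 0 (0 + 1) = 0 := fw_odd b1 rfl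
    rw [e1, e2] at h3
    linarith
  · exact h

/-- `B(x, u_(k+1)) ≥ 0` -/
theorem two_Y {k : ℕ} (h1 : 0 < fm b2 κ (k + 1)) (h2 : 0 ≤ sq b2 (k + 1)) :
    0 ≤ (fe b1 b2 0 v y g k - fe b1 b2 0 v y g (k + 2)) / 2 := by
  have h3 := (T.diff k).1
  have h4 := T.b_pos
  have h5 := T.obt
  have h6 : 0 ≤ fm b2 κ (k + 1) * (2 * b1 * v + 2 * b2 * y - 2 * g) := mul_nonneg h1.le (by linarith)
  have h7 := mul_nonneg h2 h4.le
  linarith

/-- the bound `X_U` of helper98: `B(x, u) ≥ ρ u` -/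
theorem two_G {k : ℕ} (h1 : 0 < fm b2 κ (k + 1)) (h2 : 0 ≤ sq b2 (k + 1)) {r1 r2 : ℝ}
    (hx : g + v * r1 + y * r2 ≤ 1) (hx' : 0 ≤ gL + xL * r1 + yL * r2) :
    sq b2 (k + 1) * r2 + sq b2 k ≤ (fe b1 b2 0 v y g k - fe b1 b2 0 v y g (k + 2)) / 2 := by
  have h3 := (T.diff k).1
  have hD := two_D T
  have hn := T.h.n _ _ _ T.hy
  have hfx := T.fx
  have hfy := T.fy
  have h5 := T.obt
  have hp1 := T.p1
  have hv := T.v1
  have hB := T.hB
  -- `D c = 2 xL - 2 v B`
  have hc : (y * xL - yL * v) * ((2 * y - 2 * b2 * g - 2 * 0 * v) -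
      κ * (2 * b1 * v + 2 * b2 * y - 2 * g)) = 2 * xL - 2 * v * bf b1 b2 0 gL xL yL g v y := by
    have hx1 : κ * yL = gL + f * xL := by linarith
    have hy1 : κ * y = g + f * v := by linarith
    have h6 : κ * (y * xL - yL * v) = g * xL - gL * v := by
      linear_combination xL * hy1 - v * hx1
    unfold bf
    linear_combination (-(2 * b1 * v + 2 * b2 * y - 2 * g)) * h6 + 2 * xL * hn
  have hκD : xL * (g + v * r1 + y * r2) - v * (gL + xL * r1 + yL * r2) =
      (y * xL - yL * v) * (κ + r2) := by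
    linear_combination xL * hfy - v * hfx
  have e1 : fm b2 κ (k + 1) = κ * sq b2 (k + 1) - sq b2 k := rfl
  have h6 : 0 ≤ fm b2 κ (k + 1) * ((y * xL - yL * v) * (2 * b1 * v + 2 * b2 * y - 2 * g)) :=
    mul_nonneg h1.le (mul_nonneg hD.le (by linarith))
  have h7 : 0 ≤ -(sq b2 (k + 1) * (2 * v * bf b1 b2 0 gL xL yL g v y)) := by
    have h71 : v * bf b1 b2 0 gL xL yL g v y ≤ 0 := mul_nonpos_of_nonneg_of_nonpos (by linarith) hB
    have := mul_nonpos_of_nonneg_of_nonpos h2 h71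
    linarith
  have h8 : sq b2 (k + 1) * (xL * (g + v * r1 + y * r2)) ≤ sq b2 (k + 1) * (xL * 1) :=
    mul_le_mul_of_nonneg_left (mul_le_mul_of_nonneg_left hx (by linarith)) h2
  have h9 : 0 ≤ sq b2 (k + 1) * (v * (gL + xL * r1 + yL * r2)) :=
    mul_nonneg h2 (mul_nonneg (by linarith) hx')
  have h10 : 0 ≤ (y * xL - yL * v) * fm b2 κ (k + 1) := mul_nonneg hD.le h1.le
  have h11 : (y * xL - yL * v) * (sq b2 (k + 1) * r2 + sq b2 k) ≤
      (y * xL - yL * v) * ((fe b1 b2 0 v y g k - fe b1 b2 0 v y g (k + 2)) / 2) := by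
    rw [h3]
    have h12 : (y * xL - yL * v) * ((fm b2 κ (k + 1) * (2 * b1 * v + 2 * b2 * y - 2 * g) +
        sq b2 (k + 1) * ((2 * y - 2 * b2 * g - 2 * 0 * v) -
          κ * (2 * b1 * v + 2 * b2 * y - 2 * g))) / 2) =
        fm b2 κ (k + 1) * ((y * xL - yL * v) * (2 * b1 * v + 2 * b2 * y - 2 * g)) / 2 +
          sq b2 (k + 1) * (2 * xL - 2 * v * bf b1 b2 0 gL xL yL g v y) / 2 := by
      rw [← hc]
      ring
    rw [h12]
    have h13 : (y * xL - yL * v) * (sq b2 (k + 1) * r2 + sq b2 k) =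
        sq b2 (k + 1) * ((y * xL - yL * v) * (κ + r2)) - (y * xL - yL * v) * fm b2 κ (k + 1) := by
      rw [e1]
      ring
    rw [h13, ← hκD]
    linarith
  exact le_of_mul_le_mul_left h11 hD

/-- the coordinates in the chamber of `F`, even index -/
theorem evn_of {m : ℕ} (hf : 0 < fm b2 κ (2 * m + 1)) (hs : 0 ≤ sq b2 (2 * m + 1)) :
    Evn (2 * b1) (2 * b2) (fe b1 b2 0 v y g (2 * m + 1)) (fe b1 b2 0 v y g (2 * m + 2)) v
      (2 * b1 * fe b1 b2 0 v y g (2 * m + 1) - v)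
      ((fe b1 b2 0 v y g (2 * m) - fe b1 b2 0 v y g (2 * m + 2)) / 2) := by
  have hv := T.v1
  have hx1 := T.p1
  have hE := T.e_pos hf
  have hD := two_D T
  have w1 : fw b1 0 (2 * m + 1) = 0 := fw_odd b1 (by omega)
  have w2 : fw b1 0 (2 * m + 1 + 1) = 2 * b1 := fw_even b1 (by omega)
  have e2 : 2 * m + 1 + 1 = 2 * m + 2 := rfl
  have hrec : fe b1 b2 0 v y g (2 * m + 2) = 2 * b2 * fe b1 b2 0 v y g (2 * m + 1) +
      fw b1 0 (2 * m + 1) * v - fe b1 b2 0 v y g (2 * m) := rfl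
  rw [w1, zero_mul, add_zero] at hrec
  have hn := fe_n T.h T.hy (2 * m + 1)
  rw [w1, w2, e2] at hn
  refine ⟨hE, hv, ?_, two_Y T hf hs, ?_, rfl, ?_, ?_⟩
  · have hr : Z1 (2 * b1 * fe b1 b2 0 v y g (2 * m + 1) - v) := by
      have h1 := fe_r T.h T.hy (2 * m + 1)
      simp only [w1, w2, zero_mul, add_zero] at h1
      rcases h1 with ⟨-, -, h3⟩ | ⟨h1, -, -⟩
      · exact h3
      · exfalso
        have := z1_nonneg h1
        linarith
    have h1 := fe_r T.h T.hx (2 * m + 1)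
    simp only [w1, w2, zero_mul, add_zero] at h1
    rcases h1 with ⟨-, -, h3⟩ | ⟨h1, h2, -⟩
    · apply z1_one hr
      have h4 := z1_nonneg h3
      have h5 := (T.cross (2 * m + 1)).1
      have h6 : 0 < 2 * b1 * (fm b2 κ (2 * m + 1) * (y * xL - yL * v)) :=
        mul_pos (by linarith [two_b1 T]) (mul_pos hf hD)
      have h7 : (2 * b1 * fe b1 b2 0 v y g (2 * m + 1) - v) * xL =
          (2 * b1 * fe b1 b2 0 xL yL gL (2 * m + 1) - xL) * v +
            2 * b1 * (fm b2 κ (2 * m + 1) * (y * xL - yL * v)) := by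
        linear_combination 2 * b1 * h5
      have h8 : 0 ≤ (2 * b1 * fe b1 b2 0 xL yL gL (2 * m + 1) - xL) * v := mul_nonneg h4 (by linarith)
      have h9 : 0 < (2 * b1 * fe b1 b2 0 v y g (2 * m + 1) - v) * xL := by linarith
      exact (mul_pos_iff_of_pos_right (by linarith)).1 h9
    · have h3 := z1_nonneg h1
      have h4 := z1_nonneg h2
      have h30 := z1_nonneg (fe_z T.h T.hx (by linarith) (2 * m + 1))
      have h40 := z1_nonneg (fe_z T.h T.hx (by linarith) (2 * m + 1 + 1))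
      have h5 : fe b1 b2 0 xL yL gL (2 * m + 1) = 0 := by linarith
      have h6 : fe b1 b2 0 xL yL gL (2 * m + 1 + 1) = 0 := by linarith
      have h7 := T.form (2 * m + 1)
      rw [h5, h6, w1, w2] at h7
      have h8 : xL * (2 * v) ≤ xL * (2 * b1 * fe b1 b2 0 v y g (2 * m + 1)) := by linarith
      have h9 := le_of_mul_le_mul_left h8 (by linarith)
      linarith
  · exact fe_z T.h T.hy (by linarith) (2 * m + 2)
  · rw [hrec]
    ring
  · linear_combination hn

/-- the coordinates in the chamber of `F`, odd index -/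
theorem odd_of {m : ℕ} (hf : 0 < fm b2 κ (2 * m + 2)) (hs : 0 ≤ sq b2 (2 * m + 2)) :
    Odd (2 * b1) (2 * b2) (fe b1 b2 0 v y g (2 * m + 2)) v
      ((fe b1 b2 0 v y g (2 * m + 1) - fe b1 b2 0 v y g (2 * m + 3)) / 2) := by
  have hE := T.e_pos hf
  have w1 : fw b1 0 (2 * m + 2) = 2 * b1 := fw_even b1 (by omega)
  have w2 : fw b1 0 (2 * m + 2 + 1) = 0 := fw_odd b1 (by omega)
  have e2 : 2 * m + 2 + 1 = 2 * m + 3 := rfl
  have hrec : fe b1 b2 0 v y g (2 * m + 3) = 2 * b2 * fe b1 b2 0 v y g (2 * m + 2) +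
      fw b1 0 (2 * m + 2) * v - fe b1 b2 0 v y g (2 * m + 1) := rfl
  rw [w1] at hrec
  have hn := fe_n T.h T.hy (2 * m + 2)
  rw [w1, w2, e2] at hn
  have hY := two_Y T (k := 2 * m + 1) hf hs
  refine ⟨hE, T.v1, hY, ?_⟩
  have h1 : fe b1 b2 0 v y g (2 * m + 1) = 2 * b2 * fe b1 b2 0 v y g (2 * m + 2) + 2 * b1 * v -
      fe b1 b2 0 v y g (2 * m + 3) := by linarith
  rw [h1]
  linear_combination 4 * hn

/-- the additional coordinates for `2 b1 = 1` -/
theorem one_of (hb : 2 * b1 = 1) {m : ℕ} (hf : 0 < fm b2 κ (2 * m + 2)) (hs : 0 ≤ sq b2 (2 * m + 2))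
    (hY : 0 < (fe b1 b2 0 v y g (2 * m + 1) - fe b1 b2 0 v y g (2 * m + 3)) / 2) :
    One (2 * b2) (fe b1 b2 0 v y g (2 * m + 2)) v
      ((fe b1 b2 0 v y g (2 * m + 1) - fe b1 b2 0 v y g (2 * m + 3)) / 2)
      (2 * b2 * fe b1 b2 0 v y g (2 * m + 2) - v) (fe b1 b2 0 v y g (2 * m + 3) - v) := by
  have hE := T.e_pos hf
  have hO := odd_of T hf hs
  have w1 : fw b1 0 (2 * m + 2) = 2 * b1 := fw_even b1 (by omega)
  have w2 : fw b1 0 (2 * m + 2 + 1) = 0 := fw_odd b1 (by omega)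
  have e2 : 2 * m + 2 + 1 = 2 * m + 3 := rfl
  have hrec : fe b1 b2 0 v y g (2 * m + 3) = 2 * b2 * fe b1 b2 0 v y g (2 * m + 2) +
      fw b1 0 (2 * m + 2) * v - fe b1 b2 0 v y g (2 * m + 1) := rfl
  rw [w1] at hrec
  rw [hb] at hO hrec
  have hN : (fe b1 b2 0 v y g (2 * m + 1) - fe b1 b2 0 v y g (2 * m + 3)) / 2 =
      (2 * b2 * fe b1 b2 0 v y g (2 * m + 2) - v) / 2 - (fe b1 b2 0 v y g (2 * m + 3) - v) := by
    linarith
  have hr : Z1 (fe b1 b2 0 v y g (2 * m + 3) - v) := by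
    have h1 := fe_r T.h T.hy (2 * m + 2)
    simp only [w1, w2, hb, e2, zero_mul, zero_add, one_mul] at h1
    rcases h1 with ⟨-, -, h3⟩ | ⟨h1, -, -⟩
    · exact h3
    · exfalso
      have := z1_nonneg h1
      linarith
  refine ⟨hO, rfl, hN, hr, ?_⟩
  intro hN0
  -- the reflections
  rcases fe_mem T.h T.hy (2 * m + 2) with ⟨-, h1, -, -⟩ | ⟨h1, -, -, -⟩
  · rw [e2] at h1
    have h2 := T.h.r0 _ _ _ (T.h.r1 _ _ _ h1)
    have i1 : 2 * b1 * fe b1 b2 0 v y g (2 * m + 3) + 2 * 0 * fe b1 b2 0 v y g (2 * m + 2) - v = 0 := by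
      rw [hb]
      linarith
    rw [i1] at h2
    have i2 : 2 * b1 * 0 + 2 * b2 * fe b1 b2 0 v y g (2 * m + 2) - fe b1 b2 0 v y g (2 * m + 3) =
        2 * b2 * fe b1 b2 0 v y g (2 * m + 2) - v := by linarith
    rw [i2] at h2
    have h3 := T.h.r2 _ _ _ h2
    have h4 := (T.h.z0 h3 (by linarith)).2.2
    have i3 : 2 * b2 * (2 * b2 * fe b1 b2 0 v y g (2 * m + 2) - v) + 2 * 0 * 0 -
        fe b1 b2 0 v y g (2 * m + 2) = 2 * b2 * (2 * b2 * fe b1 b2 0 v y g (2 * m + 2) - v) -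
          fe b1 b2 0 v y g (2 * m + 2) := by ring
    rw [i3] at h4
    exact h4
  · omega

omit T in
/-- the corner value in the odd chamber -/
theorem corner_odd {τ e : ℝ} (hb1 : 0 < b1) (hb2 : 0 ≤ b2) {m : ℕ} (h : Jt b2 τ (2 * m + 1)) :
    Xo (2 * b1) (2 * b2) e (fe b1 b2 0 v y g (2 * m + 2)) v
      ((fe b1 b2 0 v y g (2 * m + 1) - fe b1 b2 0 v y g (2 * m + 3)) / 2) τ =
      g - τ * y + v * (2 * b2 * τ - 1 - e) / (2 * b1) := by
  have h1 := fe_odd (b1 := b1) (v := v) (y := y) (g := g) hb2 h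
  have w1 : fw b1 0 (2 * m + 2) = 2 * b1 := fw_even b1 (by omega)
  have hrec : fe b1 b2 0 v y g (2 * m + 3) = 2 * b2 * fe b1 b2 0 v y g (2 * m + 2) +
      fw b1 0 (2 * m + 2) * v - fe b1 b2 0 v y g (2 * m + 1) := rfl
  rw [w1] at hrec
  have h2 : fe b1 b2 0 v y g (2 * m + 1) = 2 * b2 * fe b1 b2 0 v y g (2 * m + 2) + 2 * b1 * v -
      fe b1 b2 0 v y g (2 * m + 3) := by linarith
  rw [← h1, h2]
  unfold Xo
  have h3 : 2 + 2 * b2 ≠ 0 := by linarith
  field_simp
  ring

omit T in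
/-- the value of the steeper root is at least the corner value -/
theorem rho_ge {τ e r1 r2 : ℝ} (hb1 : 0 < b1) (hv : 0 ≤ v) (hga : b2 * v < b1 * y)
    (hw : -e ≤ 1 + 2 * b1 * r1 + 2 * b2 * r2) (hr : -τ ≤ r2) :
    g - τ * y + v * (2 * b2 * τ - 1 - e) / (2 * b1) ≤ g + v * r1 + y * r2 ∧
    (-τ < r2 → g - τ * y + v * (2 * b2 * τ - 1 - e) / (2 * b1) < g + v * r1 + y * r2) := by
  have h1 : g + v * r1 + y * r2 - (g - τ * y + v * (2 * b2 * τ - 1 - e) / (2 * b1)) =
      v / (2 * b1) * (1 + 2 * b1 * r1 + 2 * b2 * r2 + e) + (b1 * y - b2 * v) / b1 * (r2 + τ) := by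
    field_simp
    ring
  have h2 : 0 ≤ v / (2 * b1) * (1 + 2 * b1 * r1 + 2 * b2 * r2 + e) :=
    mul_nonneg (div_nonneg hv (by linarith)) (by linarith)
  have h3 : 0 < (b1 * y - b2 * v) / b1 := div_pos (by linarith) hb1
  constructor
  · have := mul_nonneg h3.le (by linarith : 0 ≤ r2 + τ)
    linarith
  · intro h4
    have := mul_pos h3 (by linarith : 0 < r2 + τ)
    linarith

/-- **the core**: the value of the steeper root is larger than one -/
theorem core (hb : 1 ≤ b1 ∨ 1 ≤ b2) {r1 r2 e τ : ℝ} {K : ℕ} (hJ : Jt b2 τ K)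
    (hK : 2 ≤ K ∨ (1 ≤ K ∧ 1 ≤ b1)) (hf : 0 < fm b2 κ (K + 1)) (hE : Ew (2 * b1) (2 * b2) e)
    (hw : -e ≤ 1 + 2 * b1 * r1 + 2 * b2 * r2) (hr : -τ < r2 ∨ (-τ ≤ r2 ∧ τ = b2 ∧ b2 < 1))
    (hx : g + v * r1 + y * r2 ≤ 1) (hx' : 0 ≤ gL + xL * r1 + yL * r2) : False := by
  have hb1 := two_b1 T
  have hb10 : 0 < b1 := by linarith
  have hv := T.v1
  have hK1 : 1 ≤ K := by
    rcases hK with h | h
    · omega
    · exact h.1
  have hs2 : 1 ≤ 2 * b2 := by
    have := hJ.ps 2 (by norm_num) (by omega)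
    rwa [sq_two] at this
  have hb20 : 0 < b2 := by linarith
  have hga : b2 * v < b1 * y := by
    have h1 := mul_le_mul_of_nonneg_left (two_v_le T) hb20.le
    have h2 := mul_lt_mul_of_pos_left (two_y_gt T) hb10
    linarith
  have hr' : -τ ≤ r2 := by
    rcases hr with h | h
    · exact h.le
    · exact h.1
  have hsK : 0 ≤ sq b2 (K + 1) := hJ.nonneg (by omega)
  obtain ⟨hge, hgt⟩ := rho_ge (g := g) (y := y) hb10 (by linarith : 0 ≤ v) hga hw hr'
  have hG := two_G T hf hsK hx hx'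
  rcases Nat.even_or_odd' K with ⟨m, rfl | rfl⟩
  · -- `j` even
    have hm : 1 ≤ m := by omega
    have hEv := evn_of T hf hsK
    have hXe : fe b1 b2 0 v y g (2 * m + 1) - fe b1 b2 0 v y g (2 * m + 2) * τ +
        v * (2 * b2 * τ - 1 - e) / (2 * b1) = g - τ * y + v * (2 * b2 * τ - 1 - e) / (2 * b1) := by
      rw [← fe_even (b1 := b1) (v := v) (y := y) (g := g) hJ]
      ring
    have hlin : ∀ t : ℝ, fe b1 b2 0 v y g (2 * m + 1) - fe b1 b2 0 v y g (2 * m + 2) * t +
        v * (2 * b2 * t - 1 - e) / (2 * b1) =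
        (fe b1 b2 0 v y g (2 * m + 1) + v * (-1 - e) / (2 * b1)) +
          (-fe b1 b2 0 v y g (2 * m + 2) + v * (2 * b2) / (2 * b1)) * t := by
      intro t
      ring
    have hlo : 1 / (2 * b2) ≤ τ := by
      rw [div_le_iff₀ (by linarith)]
      have := hJ.even_lo hm
      linarith
    have hXlo : fe b1 b2 0 v y g (2 * m + 1) - fe b1 b2 0 v y g (2 * m + 2) * (1 / (2 * b2)) +
        v * (2 * b2 * (1 / (2 * b2)) - 1 - e) / (2 * b1) =
        fe b1 b2 0 v y g (2 * m + 1) - fe b1 b2 0 v y g (2 * m + 2) / (2 * b2) - v * e / (2 * b1) := by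
      field_simp
      ring
    rcases le_or_gt 1 b2 with h1 | h1
    · have l1 := hEv.loB hE hb1 (by linarith)
      have l2 := hEv.hiB hE hb1 (by linarith)
      rw [← hXlo, hlin] at l1
      rw [hlin] at l2
      have hhi : τ ≤ 2 / (2 * b2) := by
        rw [le_div_iff₀ (by linarith)]
        have := hJ.even_hi2 hm h1
        linarith
      have l3 := lin l1 l2 hlo hhi
      rw [← hlin, hXe] at l3
      rcases hr with h2 | h2
      · linarith [hgt h2]
      · linarith [h2.2.2]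
    · have ha : 2 ≤ 2 * b1 := by
        rcases hb with h2 | h2
        · linarith
        · linarith
      have hss : 2 ≤ (2 * b2) ^ 2 := by
        have h2 : 0 ≤ sq b2 4 := hJ.nonneg (by omega)
        have h3 : sq b2 4 = 2 * b2 * ((2 * b2) ^ 2 - 2) := by
          have e1 : sq b2 4 = 2 * b2 * sq b2 3 - sq b2 2 := sq_succ b2 2
          have e2 : sq b2 3 = 2 * b2 * sq b2 2 - sq b2 1 := sq_succ b2 1
          rw [e1, e2, sq_two, sq_one]
          ring
        rw [h3] at h2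
        by_contra hcon
        have := mul_neg_of_pos_of_neg (by linarith : 0 < 2 * b2)
          (by linarith [not_le.1 hcon] : (2 * b2) ^ 2 - 2 < 0)
        linarith
      have l1 := hEv.loA hE ha hss (by linarith) (by linarith)
      have l2 := hEv.hiA hE ha hss (by linarith) (by linarith)
      rw [← hXlo, hlin] at l1
      rw [hlin] at l2
      have hhi : τ ≤ 2 * b2 / 2 := by
        have := hJ.even_hi hm
        linarith
      have l3 := lin' l1 l2 hlo hhi
      rw [← hlin, hXe] at l3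
      linarith
  · -- `j` odd
    have hOd := odd_of T hf hsK
    have hX := corner_odd (v := v) (y := y) (g := g) (e := e) hb10 hb20.le hJ
    rw [← hX] at hge hgt
    have hlo : 1 / (2 * b2 + 1) ≤ τ := by
      rw [div_le_iff₀ (by linarith)]
      have := hJ.odd_lo hb20.le
      linarith
    rcases le_or_gt 1 b1 with ha | ha
    · have l1 := hOd.loA hE (by linarith) hs2
      rcases le_or_gt 1 b2 with h1 | h1
      · have hy := hOd.y2 (by linarith) (by
          have h6 : (4 - (2 * b1) ^ 2) * v ≤ 0 :=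
            mul_nonpos_of_nonpos_of_nonneg (by nlinarith) (by linarith)
          have h7 : 0 ≤ 2 * (2 * b2) * (2 * b1) * fe b1 b2 0 v y g (2 * m + 2) :=
            mul_nonneg (by positivity) (by linarith [hOd.q1])
          linarith)
        have l2 := hOd.two hE (by linarith) (by linarith) hy
        have hhi : τ ≤ 2 / (2 * b2) := by
          rw [le_div_iff₀ (by linarith)]
          have := hJ.odd_hi2 h1
          linarith
        have l3 := Xo_ge l1 l2 hlo hhi
        rcases hr with h2 | h2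
        · linarith [hgt h2]
        · linarith [h2.2.2]
      · have l2 := hOd.hiA hE (by linarith) hs2 (by linarith)
        have hhi : τ ≤ 2 * b2 / 2 := by
          have := hJ.odd_hi hb20.le
          linarith
        rcases hr with h2 | h2
        · have l3 := Xo_ge l1 l2.le hlo hhi
          linarith [hgt h2]
        · have h3 : 2 * b2 / 2 = τ := by linarith [h2.2.1]
          rw [h3] at l2
          linarith
    · have h1 : 1 ≤ b2 := by
        rcases hb with h2 | h2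
        · linarith
        · exact h2
      have hm : 1 ≤ m := by
        rcases hK with h2 | h2
        · omega
        · linarith [h2.2]
      have h2 : -τ < r2 := by
        rcases hr with h2 | h2
        · exact h2
        · linarith [h2.2.2]
      have hq := hJ.pos (n := 2 * m + 1 + 1) (by omega) (by omega)
      have hY : τ < (fe b1 b2 0 v y g (2 * m + 1) - fe b1 b2 0 v y g (2 * m + 3)) / 2 := by
        have h3 := hJ.t2
        have h4 := mul_lt_mul_of_pos_left h2 hq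
        have h5 : sq b2 (2 * m + 1 + 1) * r2 + sq b2 (2 * m + 1) ≤
          (fe b1 b2 0 v y g (2 * m + 1) - fe b1 b2 0 v y g (2 * m + 3)) / 2 := hG
        linarith
      have hD : 0 < (2 * b2) ^ 2 + 2 * b2 - 1 := by nlinarith
      have hlo5 : (2 * b2 + 1) / ((2 * b2) ^ 2 + 2 * b2 - 1) ≤ τ := by
        rw [div_le_iff₀ hD]
        have := hJ.odd_lo5 hm hb20.le
        linarith
      have hT0 : 0 < (2 * b2 + 1) / ((2 * b2) ^ 2 + 2 * b2 - 1) := div_pos (by linarith) hD
      have hhi : τ ≤ 2 / (2 * b2) := by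
        rw [le_div_iff₀ (by linarith)]
        have := hJ.odd_hi2 h1
        linarith
      have hY5 : (2 * b2 + 1) / ((2 * b2) ^ 2 + 2 * b2 - 1) ≤
        (fe b1 b2 0 v y g (2 * m + 1) - fe b1 b2 0 v y g (2 * m + 3)) / 2 := by linarith
      rcases T.h.swap0.bOs with h3 | h3 | h3
      · linarith
      · have hO := one_of T h3 hf hsK (by linarith)
        have hE' := hE
        rw [h3] at hE' hgt
        have l1 := hO.lo hE' (by linarith) hY5
        have l2 := hO.hi hE' (by linarith) hY5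
        have l3 := Xo_ge l1 l2 hlo5 hhi
        linarith [hgt h2]
      · have l1 := hOd.loC hE (by linarith) h3 (by linarith) (by linarith) hY5
        have l2 := hOd.hiC hE (by linarith) h3 (by linarith)
        have l3 := Xo_ge l1 l2 hlo5 hhi
        linarith [hgt h2]

end

end Pool.Agent.Helper37.DY
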