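import Pool.Agent.Helper37.DY.Core
import Pool.Agent.Helper9.DY.NG
import Pool.Agent.Helper9.DY.Pencil

/-!
# GAP2 (`m_O = 2`) if one of the labels at `t` is at least one (MP_d13a5e_al)

`gap2_big`: `F` at `V_2` of index `j = k + 1 ≥ 4`, or of index `3` and `1 ≤ b1`, or beyond `V_2`.
-/

set_option autoImplicit false

namespace Pool.Agent.Helper37.DY

open _root_.DY
open Pool.Agent.Helper32.DY (Two fe fw fm bf z1_nonneg z1_one)
open Pool.Agent.Helper62.DY (RT rt_of_tri)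

variable {E : Type*} [AddCommGroup E] [Module ℝ E]
variable {Ψ : Set E} {B : E →ₗ[ℝ] E →ₗ[ℝ] ℝ} {ρ φ : E →ₗ[ℝ] ℝ} {t d1 d2 x x' : E}
variable {g x1 x2 g' x1' x2' : ℝ}

/-- the two roots, the steeper one second -/
theorem xs_two (X : Xs Ψ B ρ φ t d1 d2 x x' g x1 x2 g' x1' x2') :
    Two (-B t d1) (-B t d2) (-B d1 d2) (fun g x1 x2 => g • t + x1 • d1 + x2 • d2 ∈ Ψ)
      (-φ d2) (φ d1) g' x1' x2' g x1 x2 := by
  have L := X.L
  have hBxx := L.cxx.nonpos L.tri.sys L.xm L.xm'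
  exact
    { h := rt_of_tri L.tri
      hx := by
        show g' • t + x1' • d1 + x2' • d2 ∈ Ψ
        rw [← X.e']
        exact L.xm'
      hy := by
        show g • t + x1 • d1 + x2 • d2 ∈ Ψ
        rw [← X.e]
        exact L.xm
      p1 := X.p1'
      v1 := X.p1
      p2 := X.p2'
      q2 := X.p2
      fx := by linarith [X.c'.fz]
      fy := by linarith [X.c.fz]
      hf := X.h1
      hκ := by linarith [X.h2]
      st := by linarith [X.st]
      hB := by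
        rw [X.e, X.e', L.val_B] at hBxx
        unfold bf
        linarith
      obt := X.c.obt }

/-- no root of the plane of `t` and `d2` is zero at `F` -/
theorem xs_no_zero (X : Xs Ψ B ρ φ t d1 d2 x x' g x1 x2 g' x1' x2') {α β : ℝ}
    (hu : α • t + β • d2 ∈ Ψ) (hφ : φ (α • t + β • d2) = 0) : False := by
  have L := X.L
  have p1 := X.p1
  have v1 := X.p1'
  obtain ⟨γ, δ, h⟩ := L.sp _ hu
  rw [hφ, zero_smul, add_zero] at h
  have h1 : α • t + (0 : ℝ) • d1 + β • d2 =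
      (γ * g + δ * g') • t + (γ * x1 + δ * x1') • d1 + (γ * x2 + δ * x2') • d2 := by
    have e1 : α • t + (0 : ℝ) • d1 + β • d2 = α • t + β • d2 := by module
    rw [e1, h, X.e, X.e']
    module
  obtain ⟨-, h2, -⟩ := L.tri.coordW h1
  rcases L.cxx _ hu γ δ h with (⟨h5, h6⟩ | ⟨h5, h6⟩ | ⟨h5, h6⟩) | (⟨h5, h6⟩ | ⟨h5, h6⟩ | ⟨h5, h6⟩)
  · rw [h5, h6] at h2
    linarith
  · rw [h5, h6] at h2
    linarith
  · nlinarith
  · have h7 : γ = 0 := by linarith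
    have h8 : δ = -1 := by linarith
    rw [h7, h8] at h2
    linarith
  · have h7 : γ = -1 := by linarith
    have h8 : δ = 0 := by linarith
    rw [h7, h8] at h2
    linarith
  · nlinarith

/-- `φ (u_(k+1)) ≤ 0` is strict -/
theorem xs_fm_pos (X : Xs Ψ B ρ φ t d1 d2 x x' g x1 x2 g' x1' x2') {k : ℕ}
    (h : sq (-B t d2) (k + 1) * φ d2 + sq (-B t d2) k ≤ 0) : 0 < fm (-B t d2) (-φ d2) (k + 1) := by
  have e1 : fm (-B t d2) (-φ d2) (k + 1) = -φ d2 * sq (-B t d2) (k + 1) - sq (-B t d2) k := rfl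
  rw [e1]
  rcases h.lt_or_eq with h1 | h1
  · linarith
  · exfalso
    have hC := X.L.tri.cp'
    have h2 := hC.mem k
    have h3 : pu (-B t d2) t d2 k = sq (-B t d2) k • t + sq (-B t d2) (k + 1) • d2 := rfl
    rw [h3] at h2
    refine xs_no_zero X h2 ?_
    rw [map_add, map_smul, map_smul, X.L.ft]
    simp only [smul_eq_mul]
    linarith

/-- the number `e` for the root `w = t + 2 b1 d1 + 2 b2 d2` -/
theorem xs_w (X : Xs Ψ B ρ φ t d1 d2 x x' g x1 x2 g' x1' x2') (hO : B d1 d2 = 0)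
    (hb : 4 ≤ (2 * -B t d1) ^ 2 + (2 * -B t d2) ^ 2) :
    ∃ e, Ew (2 * -B t d1) (2 * -B t d2) e ∧ -e ≤ 1 + 2 * -B t d1 * ρ d1 + 2 * -B t d2 * ρ d2 := by
  have L := X.L
  have hR := rt_of_tri L.tri
  have hz1 := L.lbl.z1
  have hz2 := L.lbl.z2
  obtain ⟨b1, hb1⟩ : ∃ b, b = -B t d1 := ⟨_, rfl⟩
  obtain ⟨b2, hb2⟩ : ∃ b, b = -B t d2 := ⟨_, rfl⟩
  rw [← hb1, ← hb2] at hb hR ⊢
  rw [← hb1] at hz1
  rw [← hb2] at hz2
  have hw : (1 : ℝ) • t + (2 * b1) • d1 + (2 * b2) • d2 ∈ Ψ := by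
    have h1 := hR.r2 _ _ _ (hR.r1 _ _ _ hR.e0)
    have i1 : 2 * b1 * 1 + 2 * -B d1 d2 * 0 - 0 = 2 * b1 := by ring
    have i2 : 2 * b2 * 1 + 2 * -B d1 d2 * (2 * b1) - 0 = 2 * b2 := by rw [hO]; ring
    rw [i1, i2] at h1
    exact h1
  have hp : (1 : ℝ) • t + (2 * b1) • d1 + (2 * b2) • d2 ∈ C01 t d1 d2 :=
    ⟨1, 2 * b1, 2 * b2, rfl, Or.inr le_rfl, hz1, hz2⟩
  have hne : (1 : ℝ) • t + (2 * b1) • d1 + (2 * b2) • d2 ≠ t := by
    intro h
    obtain ⟨-, h2, h3⟩ := L.tri.indep 0 (2 * b1) (2 * b2) (by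
      have : (0 : ℝ) • t + (2 * b1) • d1 + (2 * b2) • d2 =
        ((1 : ℝ) • t + (2 * b1) • d1 + (2 * b2) • d2) - t := by module
      rw [this, h, sub_self])
    rw [h2, h3] at hb
    norm_num at hb
  have hS := L.str _ hw hp hne
  have hBw : -B t ((1 : ℝ) • t + (2 * b1) • d1 + (2 * b2) • d2) = 2 * b1 ^ 2 + 2 * b2 ^ 2 - 1 := by
    have h2 := L.val_B 1 0 0 1 (2 * b1) (2 * b2)
    rw [one_smul, zero_smul, zero_smul, add_zero, add_zero] at h2
    rw [one_smul, h2]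
    have h3 : B t d1 = -b1 := by linarith
    have h4 : B t d2 = -b2 := by linarith
    rw [h3, h4]
    ring
  have hρw : ρ ((1 : ℝ) • t + (2 * b1) • d1 + (2 * b2) • d2) = 1 + 2 * b1 * ρ d1 + 2 * b2 * ρ d2 := by
    rw [L.val_ρ]
  rw [hBw, hρw] at hS
  obtain ⟨c, hc⟩ : ∃ c, c = 2 * b1 ^ 2 + 2 * b2 ^ 2 - 1 := ⟨_, rfl⟩
  obtain ⟨r, hr⟩ : ∃ r, r = 1 + 2 * b1 * ρ d1 + 2 * b2 * ρ d2 := ⟨_, rfl⟩
  rw [← hc, ← hr] at hS
  rw [← hr]
  have hc1 : 1 ≤ c := by rw [hc]; nlinarith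
  have h0 : 0 ≤ c ^ 2 - 1 := by nlinarith
  have h1 := Real.sq_sqrt h0
  have h2 := Real.sqrt_nonneg (c ^ 2 - 1)
  obtain ⟨u, hu⟩ : ∃ u, u = Real.sqrt (c ^ 2 - 1) := ⟨_, rfl⟩
  rw [← hu] at h1 h2
  have e0 : 0 < c - u := by nlinarith
  have e1 : c - u ≤ 1 := by nlinarith
  refine ⟨c - u, ⟨e0, e1, ?_⟩, ?_⟩
  · have h3 : (2 * b1) ^ 2 + (2 * b2) ^ 2 - 2 = 2 * c := by rw [hc]; ring
    rw [h3]
    linear_combination h1
  · have hul := hS.ult hc1
    have hfo := hS.foot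
    by_contra hcon
    rw [not_le] at hcon
    -- `(r + c)^2 ≥ u^2`, `r + c ≥ 0`
    have h3 : 0 ≤ r + c := by linarith
    have h4 : r + c < u := by linarith
    have h5 : (r + c) ^ 2 < u ^ 2 := by nlinarith
    nlinarith

/-- the index -/
theorem xs_good (X : Xs Ψ B ρ φ t d1 d2 x x' g x1 x2 g' x1' x2') {K : ℕ}
    (h : Good (-B t d2) (φ d2) (K + 1)) :
    ∃ τ, Jt (-B t d2) τ K ∧ 0 < fm (-B t d2) (-φ d2) (K + 1) ∧ -τ < ρ d2 := by
  have hC := X.L.tri.cp'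
  have h1 := h.hs (K + 1) le_rfl
  have h2 := h.hm K (by omega)
  have hp : d2 ∈ C01 t d1 d2 := ⟨0, 0, 1, by simp, Or.inl rfl, Or.inl rfl, Or.inr le_rfl⟩
  have hne : d2 ≠ t := by
    intro h
    have h1 := X.h2
    rw [h, X.L.ft] at h1
    linarith
  have hnk := h.nk (X.L.str d2 X.L.tri.hc hp hne) X.h2
  have e1 : K + 1 + 1 = K + 2 := rfl
  rw [e1] at h1 hnk
  have hcas := sq_cassini (-B t d2) K
  refine ⟨(sq (-B t d2) (K + 1) - 1) / sq (-B t d2) (K + 2), ⟨?_, ?_, h1.le, ?_⟩, xs_fm_pos X h2, ?_⟩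
  · field_simp
    ring
  · field_simp
    linear_combination (-1 : ℝ) * hcas
  · intro n h3 h4
    obtain ⟨l, rfl⟩ : ∃ l, n = l + 1 := ⟨n - 1, by omega⟩
    exact hC.sq_one_le (h.hs l (by omega))
  · rw [neg_lt, lt_div_iff₀ h1] at *
    linarith

/-- **GAP2 with a label at least one at `t`** -/
theorem gap2_big (X : Xs Ψ B ρ φ t d1 d2 x x' g x1 x2 g' x1' x2') (hO : B d1 d2 = 0)
    (hb : 1 ≤ -B t d1 ∨ 1 ≤ -B t d2)
    (hk : (∃ k, 3 ≤ k ∧ Good (-B t d2) (φ d2) k) ∨ (1 ≤ -B t d1 ∧ Good (-B t d2) (φ d2) 2) ∨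
      Beyond (-B t d2) (φ d2)) : False := by
  have T := xs_two X
  have hO' : -B d1 d2 = 0 := by rw [hO, neg_zero]
  rw [hO'] at T
  have hb1 := two_b1 T
  have hx : g + x1 * ρ d1 + x2 * ρ d2 ≤ 1 := by
    rw [← X.rx]
    linarith [X.L.sum, X.L.rx']
  have hx' : 0 ≤ g' + x1' * ρ d1 + x2' * ρ d2 := by
    rw [← X.rx']
    exact X.L.rx'
  -- `b2 > 0`
  have hs2 : 1 ≤ 2 * -B t d2 := by
    rcases X.L.lbl.z2 with h | h
    · exfalso
      rcases X.c.r2 with ⟨-, h2, -⟩ | h2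
      · linarith [X.p1]
      · rw [h, hO'] at h2
        have := z1_nonneg h2
        linarith [X.p2]
    · exact h
  have hC := X.L.tri.cp'
  rcases hC.sq_dich with ⟨hb2, hinf⟩ | ⟨m, hm0, hm1, hm2, hm3⟩
  · -- `b2 ≥ 1`
    have h4 : 4 ≤ (2 * -B t d1) ^ 2 + (2 * -B t d2) ^ 2 := by nlinarith
    obtain ⟨e, hE, hw⟩ := xs_w X hO h4
    rcases hk with ⟨k, hk3, hk⟩ | ⟨ha, hk⟩ | hk
    · obtain ⟨K, rfl⟩ : ∃ K, k = K + 1 := ⟨k - 1, by omega⟩
      obtain ⟨τ, hJ, hf, hr⟩ := xs_good X hk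
      exact core T hb hJ (Or.inl (by omega)) hf hE hw (Or.inl hr) hx hx'
    · obtain ⟨τ, hJ, hf, hr⟩ := xs_good X (K := 1) hk
      exact core T hb hJ (Or.inr ⟨le_rfl, ha⟩) hf hE hw (Or.inl hr) hx hx'
    · -- beyond, infinite order
      have hpos : ∀ k, 0 < fm (-B t d2) (-φ d2) (k + 1) := fun k =>
        xs_fm_pos X (hk k fun i _ => by linarith [hinf i])
      have hc := T.b_pos
      obtain ⟨c, hcd⟩ : ∃ c, c = (2 * x2 - 2 * -B t d2 * g - 2 * 0 * x1) -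
          -φ d2 * (2 * -B t d1 * x1 + 2 * -B t d2 * x2 - 2 * g) := ⟨_, rfl⟩
      rw [← hcd] at hc
      have hstep : ∀ k, fe (-B t d1) (-B t d2) 0 x1 x2 g (k + 2) ≤
          fe (-B t d1) (-B t d2) 0 x1 x2 g k - c := by
        intro k
        have h5 := (T.diff k).1
        rw [← hcd] at h5
        have h6 : 0 ≤ fm (-B t d2) (-φ d2) (k + 1) *
            (2 * -B t d1 * x1 + 2 * -B t d2 * x2 - 2 * g) :=
          mul_nonneg (hpos k).le (by linarith [T.obt])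
        have h7 : 1 * c ≤ sq (-B t d2) (k + 1) * c := mul_le_mul_of_nonneg_right (hinf k) hc.le
        linarith
      have hall : ∀ n : ℕ, fe (-B t d1) (-B t d2) 0 x1 x2 g (2 * n) ≤ x2 - n * c := by
        intro n
        induction n with
        | zero =>
          show x2 ≤ x2 - ((0 : ℕ) : ℝ) * c
          simp
        | succ n ih =>
          have h8 := hstep (2 * n)
          have e1 : 2 * (n + 1) = 2 * n + 2 := by ring
          rw [e1]
          push_cast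
          linarith
      obtain ⟨n, hn⟩ := exists_nat_gt (x2 / c)
      rw [div_lt_iff₀ hc] at hn
      have h9 := z1_nonneg (Pool.Agent.Helper32.DY.fe_z T.h T.hy (by linarith [T.v1]) (2 * n))
      linarith [hall n]
  · -- `b2 < 1`, so `b1 ≥ 1`
    have ha : 1 ≤ -B t d1 := by
      rcases hb with h | h
      · exact h
      · linarith
    have hm' : 1 ≤ m := by
      by_contra hcon
      have h3 : m = 0 := by omega
      rw [h3] at hm0
      have e1 : sq (-B t d2) (0 + 2) = 2 * -B t d2 := sq_two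
      rw [e1] at hm0
      linarith
    have h4 : 4 ≤ (2 * -B t d1) ^ 2 + (2 * -B t d2) ^ 2 := by nlinarith
    obtain ⟨e, hE, hw⟩ := xs_w X hO h4
    rcases hk with ⟨k, hk3, hk⟩ | ⟨ha, hk⟩ | hk
    · obtain ⟨K, rfl⟩ : ∃ K, k = K + 1 := ⟨k - 1, by omega⟩
      obtain ⟨τ, hJ, hf, hr⟩ := xs_good X hk
      exact core T hb hJ (Or.inl (by omega)) hf hE hw (Or.inl hr) hx hx'
    · obtain ⟨τ, hJ, hf, hr⟩ := xs_good X (K := 1) hk
      exact core T hb hJ (Or.inr ⟨le_rfl, ha⟩) hf hE hw (Or.inl hr) hx hx'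
    · -- beyond, finite order
      have hsm : sq (-B t d2) m = 2 * -B t d2 := by
        have := sq_succ (-B t d2) m
        rw [hm0, hm1] at this
        linarith
      have hJ : Jt (-B t d2) (-B t d2) m := by
        refine ⟨?_, ?_, hm0.ge, ?_⟩
        · rw [hm0, hm1]
          ring
        · rw [hm1, hsm]
          ring
        · intro n h5 h6
          obtain ⟨l, rfl⟩ : ∃ l, n = l + 1 := ⟨n - 1, by omega⟩
          exact hm3 l (by omega)
      have hf := xs_fm_pos X (hk m fun i hi => by linarith [hm3 i hi])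
      have hfo := X.L.lbl.f2
      exact core T hb hJ (Or.inr ⟨hm', ha⟩) hf hE hw (Or.inr ⟨hfo, rfl, hm2⟩) hx hx'

end Pool.Agent.Helper37.DY
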