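import Pool.Agent.Helper32.DY.G2b
import Pool.Agent.Helper37.DY.Gap2

/-!
# GAP2, part (b), a label at least one at `t`: the Prop of helper32 (MP_d13a5e_al)
-/

set_option autoImplicit false

namespace DY

variable {E : Type*} [AddCommGroup E] [Module ℝ E]

theorem g2b37 (Ψ : Set E) (B : E →ₗ[ℝ] E →ₗ[ℝ] ℝ) : G2b37 Ψ B := by
  rintro ρ φ t d1 d2 x x' g x1 x2 g' x1' x2' X h0 - - ⟨hb, -, k, hk, hG, -⟩
  exact Pool.Agent.Helper37.DY.gap2_big X h0 hb (Or.inl ⟨k, hk, hG⟩)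

end DY
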