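import Mathlib

/-!
# GAP2 with a label at least one at `t`: the real inequalities (MP_d13a5e_al)

`a = 2 b1`, `s = 2 b2`, `q = e_Q`, `p = e_P`, `v = x1`: the coordinates of the steeper root in the chamber of the fan of
`<t, d2>` which contains `F`, `y = B(x, u_(j-1))`, `e + 1/e = a^2 + s^2 - 2`.
The corner value is linear in `τ`; the lemmas give it at the two ends.
-/

set_option autoImplicit false

namespace Pool.Agent.Helper37.DY

/-- linear interpolation -/
theorem lin {α β t0 t1 t c : ℝ} (h0 : c ≤ α + β * t0) (h1 : c ≤ α + β * t1) (ha : t0 ≤ t) (hb : t ≤ t1) :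
    c ≤ α + β * t := by
  rcases le_total 0 β with h | h
  · have := mul_le_mul_of_nonneg_left ha h
    linarith only [h0, this]
  · have := mul_le_mul_of_nonpos_left hb h
    linarith only [h1, this]

/-- `e + 1/e = a^2 + s^2 - 2` -/
structure Ew (a s e : ℝ) : Prop where
  e0 : 0 < e
  e1 : e ≤ 1
  eq : e ^ 2 + 1 = (a ^ 2 + s ^ 2 - 2) * e

section ew

variable {a s e : ℝ}

theorem Ew.b1 (h : Ew a s e) : e * (a ^ 2 + s ^ 2 - 3) ≤ 1 := by
  have h1 : e * e ≤ e * 1 := mul_le_mul_of_nonneg_left h.e1 h.e0.le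
  nlinarith only [h1, h.eq]

theorem Ew.le_of (h : Ew a s e) {c : ℝ} (h1 : c ≤ a ^ 2 + s ^ 2 - 3) : e * c ≤ 1 := by
  have := mul_le_mul_of_nonneg_left h1 h.e0.le
  linarith only [this, h.b1]

theorem Ew.lt_A (h : Ew a s e) (ha : 2 ≤ a) (hs : 2 ≤ s ^ 2) : e < 5 / 18 := by
  have h0 := h.e0
  have h1 : e * 3 ≤ 1 := h.le_of (by nlinarith only [ha, hs])
  have h2 : 4 * e ≤ (a ^ 2 + s ^ 2 - 2) * e := mul_le_mul_of_nonneg_right (by nlinarith only [ha, hs]) h0.le
  have h3 : 4 * e ≤ 1 + e ^ 2 := by linarith only [h2, h.eq]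
  have h4 : e ^ 2 ≤ 1 / 9 := by nlinarith only [h0, h1]
  have h5 : e ≤ 5 / 18 := by linarith only [h3, h4]
  nlinarith only [h3, h5]

theorem Ew.le_A' (h : Ew a s e) (ha : 5 / 2 ≤ a) (hs : 2 ≤ s ^ 2) : e ≤ 7 / 40 := by
  have h0 := h.e0
  have h1 := h.lt_A (by linarith only [ha]) hs
  have h2 : 25 / 4 * e ≤ (a ^ 2 + s ^ 2 - 2) * e := mul_le_mul_of_nonneg_right (by nlinarith only [ha, hs]) h0.le
  have h3 : 25 / 4 * e ≤ 1 + e ^ 2 := by linarith only [h2, h.eq]
  nlinarith only [h1, h3]

theorem Ew.le_B (h : Ew a s e) (ha : 1 ≤ a) (hs : 2 ≤ s) : e ≤ 1 / 2 := by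
  have h1 : e * 2 ≤ 1 := h.le_of (by nlinarith only [ha, hs])
  linarith only [h1]

end ew

section even

variable {a s e q p v N y : ℝ}

/-- the coordinates of the steeper root, `j` even -/
structure Evn (a s q p v N y : ℝ) : Prop where
  q1 : 1 ≤ q
  v1 : 1 ≤ v
  N1 : 1 ≤ N
  y0 : 0 ≤ y
  p0 : p = 0 ∨ 1 ≤ p
  hN : N = a * q - v
  hy : p = s * q / 2 - y
  nrm : q ^ 2 - 1 = v * N + p * (s * q - p)

theorem Evn.vN (h : Evn a s q p v N y) : a * q - 1 ≤ v * N := by
  have h1 : 0 ≤ (v - 1) * (N - 1) := mul_nonneg (by linarith only [h.v1]) (by linarith only [h.N1])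
  have h2 := h.hN
  nlinarith only [h1, h2]

theorem Evn.ve (h : Evn a s q p v N y) (ha : 0 < a) (he : 0 ≤ e) : v * e / a ≤ q * e - e / a := by
  have h1 : v ≤ a * q - 1 := by linarith only [h.hN, h.N1]
  have h2 : v * e ≤ (a * q - 1) * e := mul_le_mul_of_nonneg_right h1 he
  have h3 : q * e - e / a = (a * q - 1) * e / a := by
    field_simp
  rw [h3]
  exact div_le_div_of_nonneg_right h2 ha.le

theorem Evn.ysq (h : Evn a s q p v N y) : y ^ 2 = (s ^ 2 / 4 - 1) * q ^ 2 + 1 + v * N := by
  have h1 := h.nrm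
  rw [h.hy] at h1
  linarith only [h1]

theorem Evn.qa (h : Evn a s q p v N y) (hp : p = 0) : a ≤ q := by
  have h1 := h.nrm
  rw [hp] at h1
  have h2 := h.vN
  have h3 : a * q ≤ q * q := by nlinarith only [h1, h2]
  exact le_of_mul_le_mul_right h3 (by linarith only [h.q1])

theorem Evn.quad (h : Evn a s q p v N y) (hp : 1 ≤ p) : 0 ≤ q ^ 2 - (a + s) * q + 1 := by
  have h1 := h.nrm
  have h2 := h.vN
  have h3 : 1 ≤ s * q - p := by linarith only [hp, h.hy, h.y0]
  have h4 : 0 ≤ (p - 1) * (s * q - p - 1) := mul_nonneg (by linarith only [hp]) (by linarith only [h3])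
  nlinarith only [h1, h2, h4]

/-- the value at the lower end, `a ≥ 2`, `p ≥ 1` -/
theorem Evn.E0 (h : Evn a s q p v N y) (hE : Ew a s e) (ha : 2 ≤ a) (hs : 2 ≤ s ^ 2) (hs0 : 0 < s)
    (hs2 : s < 2) (hp : 1 ≤ p) : 1 < q / 2 - q * e + e / a + y / s := by
  have hq := h.q1
  have hquad := h.quad hp
  have he0 := hE.e0
  have he := hE.lt_A ha hs
  have hs1 : 141 / 100 ≤ s := by nlinarith only [hs, hs0]
  have hea : 0 < e / a := div_pos he0 (by linarith only [ha])
  have hys : 0 ≤ y / s := div_nonneg h.y0 hs0.le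
  rcases le_total (5 / 2) a with h1 | h1
  · have he' := hE.le_A' h1 hs
    have h2 : 33 / 10 ≤ q := by
      by_contra hcon
      rw [not_le] at hcon
      have h3 : (391 / 100) * q ≤ (a + s) * q := mul_le_mul_of_nonneg_right (by linarith only [hs1, h1]) (by linarith only [hq])
      nlinarith only [hq, hquad, hcon, h3]
    have h3 : q * e ≤ q * (7 / 40) := mul_le_mul_of_nonneg_left he' (by linarith only [h2])
    linarith only [hea, hys, h2, h3]
  · have h2 : 29 / 10 ≤ q := by
      by_contra hcon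
      rw [not_le] at hcon
      have h3 : (341 / 100) * q ≤ (a + s) * q := mul_le_mul_of_nonneg_right (by linarith only [ha, hs1]) (by linarith only [hq])
      nlinarith
    -- `e (q - 1/a) < 5/18 (q - 1/a)`
    have hia : 2 / 5 ≤ 1 / a := by
      rw [le_div_iff₀ (by linarith only [ha])]
      linarith only [h1]
    have hia2 : 1 / a ≤ 1 / 2 := by
      rw [div_le_iff₀ (by linarith only [ha])]
      linarith only [ha]
    have h3 : e / a = e * (1 / a) := by ring
    have h4 : e * (q - 1 / a) < 5 / 18 * (q - 1 / a) := mul_lt_mul_of_pos_right he (by linarith only [h2, hia2])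
    rcases le_total 4 q with h5 | h5
    · rw [h3] at hea ⊢
      nlinarith only [hys, hia, h4, h5]
    · -- `y ≥ 4 - q`
      have h6 : 4 - q ≤ y := by
        by_contra hcon
        rw [not_le] at hcon
        have h7 : y ^ 2 < (4 - q) ^ 2 := by
          have := h.y0
          nlinarith only [hcon, this]
        have h8 := h.ysq
        have h9 := h.vN
        have h10 : 2 * q ≤ a * q := mul_le_mul_of_nonneg_right ha (by linarith only [h2])
        have h11 : -(1 / 2) * q ^ 2 ≤ (s ^ 2 / 4 - 1) * q ^ 2 :=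
          mul_le_mul_of_nonneg_right (by linarith only [hs]) (sq_nonneg q)
        nlinarith only [h7, h8, h9, h10, h11, mul_nonneg (by linarith only [h5] : 0 ≤ 4 - q) (by linarith only [h2] : 0 ≤ q - 29 / 10)]
      have h7 : (4 - q) / 2 ≤ y / s := by
        rw [div_le_div_iff₀ (by norm_num) hs0]
        nlinarith only [hs2, h5, h6]
      rw [h3]
      nlinarith only [hia, h4, h5, h7]

/-- lower end, `a ≥ 2`, `s < 2` -/
theorem Evn.loA (h : Evn a s q p v N y) (hE : Ew a s e) (ha : 2 ≤ a) (hs : 2 ≤ s ^ 2) (hs0 : 0 < s)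
    (hs2 : s < 2) : 1 < q - p / s - v * e / a := by
  have hve := h.ve (e := e) (by linarith only [ha]) hE.e0.le
  have he := hE.lt_A ha hs
  have hea : 0 < e / a := div_pos hE.e0 (by linarith only [ha])
  rcases h.p0 with hp | hp
  · have h1 := h.qa hp
    rw [hp, zero_div]
    have h2 : q * e ≤ q * (5 / 18) := mul_le_mul_of_nonneg_left he.le (by linarith only [ha, h1])
    linarith only [ha, hve, hea, h1, h2]
  · have h1 := h.E0 hE ha hs hs0 hs2 hp
    have h2 : p / s = q / 2 - y / s := by
      rw [h.hy]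
      field_simp
    rw [h2]
    linarith only [hve, h1]

/-- upper end, `a ≥ 2`, `s < 2` -/
theorem Evn.hiA (h : Evn a s q p v N y) (hE : Ew a s e) (ha : 2 ≤ a) (hs : 2 ≤ s ^ 2) (hs0 : 0 < s)
    (hs2 : s < 2) : 1 < q - p * (s / 2) + v * (s * (s / 2) - 1 - e) / a := by
  have hve := h.ve (e := e) (by linarith only [ha]) hE.e0.le
  have he := hE.lt_A ha hs
  have hea : 0 < e / a := div_pos hE.e0 (by linarith only [ha])
  have hv := h.v1
  have hq := h.q1
  have ha0 : 0 < a := by linarith only [ha]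
  have hsig : 0 ≤ s * (s / 2) - 1 := by nlinarith only [hs]
  have hv0 : 0 ≤ v * (s * (s / 2) - 1) / a := div_nonneg (mul_nonneg (by linarith only [hv]) hsig) ha0.le
  have e1 : v * (s * (s / 2) - 1 - e) / a = v * (s * (s / 2) - 1) / a - v * e / a := by ring
  rcases h.p0 with hp | hp
  · have h1 := h.qa hp
    rw [hp, zero_mul, e1]
    have h2 : q * e ≤ q * (5 / 18) := mul_le_mul_of_nonneg_left he.le (by linarith only [hq])
    linarith only [ha, hve, hea, hv0, h1, h2]
  · have hquad := h.quad hp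
    have hs1 : 141 / 100 ≤ s := by nlinarith only [hs, hs0]
    have h29 : 29 / 10 ≤ q := by
      by_contra hcon
      rw [not_le] at hcon
      have h3 : (341 / 100) * q ≤ (a + s) * q := mul_le_mul_of_nonneg_right (by linarith only [ha, hs1]) (by linarith only [hq])
      nlinarith only [hq, hquad, hcon, h3]
    rcases le_total e (s * (s / 2) - 1) with h1 | h1
    · have h2 : 0 ≤ v * (s * (s / 2) - 1 - e) / a :=
        div_nonneg (mul_nonneg (by linarith only [hv]) (by linarith only [h1])) ha0.le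
      have h3 : q - p * (s / 2) = (1 - s ^ 2 / 4) * q + s / 2 * y := by
        rw [h.hy]
        ring
      rw [h3]
      have hy0 := h.y0
      have h4 : 0 ≤ s / 2 * y := mul_nonneg (by linarith only [hs1]) hy0
      rcases lt_or_ge 1 ((1 - s ^ 2 / 4) * q) with h5 | h5
      · linarith only [h2, h4, h5]
      · -- `y ^ 2 ≥ q`
        have h6 := h.ysq
        have h7 := h.vN
        have h8 : 2 * q ≤ a * q := mul_le_mul_of_nonneg_right ha (by linarith only [h29])
        have h9 : (1 - s ^ 2 / 4) * q * q ≤ 1 * q := mul_le_mul_of_nonneg_right h5 (by linarith only [h29])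
        have h10 : q ≤ y ^ 2 := by nlinarith only [h6, h7, h8, h9]
        have h11 : 17 / 10 ≤ y := by nlinarith only [h29, hy0, h6, h7, h8, h9]
        have h12 : 141 / 200 * (17 / 10) ≤ s / 2 * y := by
          apply mul_le_mul (by linarith only [hs1]) h11 (by norm_num) (by linarith only [hs1])
        have h13 : 0 ≤ (1 - s ^ 2 / 4) * q := mul_nonneg (by nlinarith only [hs0, hs2]) (by linarith only [h29])
        linarith only [h2, h12, h13]
    · have h2 := h.E0 hE ha hs hs0 hs2 hp
      -- `v (σ - e) / a ≥ (q - 1/a) (σ - e)`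
      have h3 : (q - 1 / a) * (s * (s / 2) - 1 - e) ≤ v * (s * (s / 2) - 1 - e) / a := by
        have h4 : v / a ≤ q - 1 / a := by
          have h5 : q - 1 / a = (a * q - 1) / a := by field_simp
          rw [h5]
          apply div_le_div_of_nonneg_right _ ha0.le
          linarith only [h.hN, h.N1]
        have h5 : v * (s * (s / 2) - 1 - e) / a = v / a * (s * (s / 2) - 1 - e) := by ring
        rw [h5]
        exact mul_le_mul_of_nonpos_right h4 (by linarith only [h1])
      have h4 : q - p * (s / 2) = (1 - s ^ 2 / 4) * q + s / 2 * y := by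
        rw [h.hy]
        ring
      rw [h4]
      have h5 : y / s ≤ s / 2 * y := by
        rw [div_le_iff₀ hs0]
        have := h.y0
        nlinarith only [hsig, this]
      have hia2 : 1 / a ≤ 1 / 2 := by
        rw [div_le_iff₀ (by linarith only [ha0])]
        linarith only [ha]
      have h6 : 0 ≤ (s * (s / 2) - 1) * (q / 2 - 1 / a) := mul_nonneg hsig (by linarith only [h29, hia2])
      have h7 : e / a = e * (1 / a) := by ring
      rw [h7] at h2
      nlinarith only [h2, h3, h5, h6]

/-- lower end, `s ≥ 2` -/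
theorem Evn.loB (h : Evn a s q p v N y) (hE : Ew a s e) (ha : 1 ≤ a) (hs : 2 ≤ s) :
    1 ≤ q - p / s - v * e / a := by
  have ha0 : 0 < a := by linarith only [ha]
  have hs0 : 0 < s := by linarith only [hs]
  have he0 := hE.e0
  have hve := h.ve (e := e) ha0 he0.le
  have he := hE.le_B ha hs
  have hea : 0 < e / a := div_pos hE.e0 ha0
  rcases h.p0 with hp | hp
  · have h1 := h.qa hp
    rw [hp, zero_div]
    have h2 : 1 ≤ a * (1 - e) + e / a := by
      have h3 : a * (1 - e) + e / a - 1 = (a - 1) * (a * (1 - e) - e) / a := by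
        field_simp
        ring
      have h4 : 0 ≤ (a - 1) * (a * (1 - e) - e) / a := by
        apply div_nonneg _ ha0.le
        apply mul_nonneg (by linarith only [ha])
        nlinarith only [ha, he]
      linarith only [h3, h4]
    have h3 : a * (1 - e) ≤ q * (1 - e) := mul_le_mul_of_nonneg_right h1 (by linarith only [he])
    linarith only [hve, h2, h3]
  · have hquad := h.quad hp
    have hq1 := h.q1
    have hq : s + 1 / 2 ≤ q := by
      by_contra hcon
      rw [not_le] at hcon
      have h3 : (1 + s) * q ≤ (a + s) * q := mul_le_mul_of_nonneg_right (by linarith only [ha]) (by linarith only [hq1])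
      -- `q (1 + s - q) ≤ 1`
      have h4 : 0 < (s + 1 / 2 - q) * (q - 1) ∨ q = 1 := by
        rcases hq1.lt_or_eq with h5 | h5
        · exact Or.inl (mul_pos (by linarith only [hcon]) (by linarith only [h5]))
        · exact Or.inr h5.symm
      rcases h4 with h4 | h4
      · nlinarith only [hs, hquad, h3, h4]
      · rw [h4] at h3 hquad
        nlinarith only [ha, hs, hquad]
    have hy : 3 / 4 ≤ y / s := by
      rw [le_div_iff₀ hs0]
      by_contra hcon
      rw [not_le] at hcon
      have h4 := h.ysq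
      have h5 := h.vN
      have h6 : y ^ 2 < (3 / 4 * s) ^ 2 := by
        have := h.y0
        nlinarith only [hcon, this]
      have h7 : q ≤ a * q := by nlinarith only [ha, hq1]
      have h8 : (s ^ 2 / 4 - 1) * (s + 1 / 2) ^ 2 ≤ (s ^ 2 / 4 - 1) * q ^ 2 := by
        apply mul_le_mul_of_nonneg_left _ (by nlinarith only [hs])
        nlinarith only [hs0, hq]
      have h9 : 0 ≤ s ^ 4 / 4 + s ^ 3 / 4 - 3 / 2 * s ^ 2 + 1 / 4 := by
        nlinarith only [mul_nonneg (by linarith only [hs] : 0 ≤ s - 2) (by linarith only [hs] : 0 ≤ s - 2),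
          mul_nonneg (mul_nonneg (by linarith only [hs] : 0 ≤ s - 2) (by linarith only [hs] : 0 ≤ s - 2)) (sq_nonneg s),
          mul_nonneg (by linarith only [hs] : 0 ≤ s - 2) (sq_nonneg s)]
      nlinarith only [hq, h4, h5, h6, h7, h8, h9]
    have h2 : p / s = q / 2 - y / s := by
      rw [h.hy]
      field_simp
    rw [h2]
    have h3 : 1 / 4 ≤ q / 2 - q * e + e / a := by
      rcases le_total e (2 / 5) with h4 | h4
      · have h5 : q * e ≤ q * (2 / 5) := mul_le_mul_of_nonneg_left h4 (by linarith only [hq1])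
        linarith only [hs, hea, hq, h5]
      · have h5 : q * e ≤ q * (1 / 2) := mul_le_mul_of_nonneg_left he (by linarith only [hq1])
        have h6 : e * (a ^ 2 + 1) ≤ 1 := hE.le_of (by nlinarith only [hs])
        have h7 : a ≤ 8 / 5 := by
          by_contra hcon
          rw [not_le] at hcon
          have h8 : 2 / 5 * (a ^ 2 + 1) ≤ e * (a ^ 2 + 1) := mul_le_mul_of_nonneg_right h4 (by positivity)
          nlinarith only [h6, hcon, h8]
        have h8 : 1 / 4 ≤ e / a := by
          rw [le_div_iff₀ ha0]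
          linarith only [h4, h7]
        linarith only [h5, h8]
    linarith only [hve, hy, h3]

/-- `y ≥ s / 2` -/
theorem Evn.y2 (h : Evn a s q p v N y) (hs : 2 ≤ s) : s / 2 ≤ y := by
  have h1 := h.ysq
  have h2 : 0 ≤ v * N := mul_nonneg (by linarith only [h.v1]) (by linarith only [h.N1])
  have h3 : (s ^ 2 / 4 - 1) * 1 ≤ (s ^ 2 / 4 - 1) * q ^ 2 := by
    apply mul_le_mul_of_nonneg_left _ (by nlinarith only [hs])
    have := h.q1
    nlinarith only [this]
  by_contra hcon
  rw [not_le] at hcon
  have := h.y0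
  nlinarith only [h1, h2, h3, hcon, this]

/-- upper end, `s ≥ 2` -/
theorem Evn.hiB (h : Evn a s q p v N y) (hE : Ew a s e) (ha : 1 ≤ a) (hs : 2 ≤ s) :
    1 ≤ q - p * (2 / s) + v * (s * (2 / s) - 1 - e) / a := by
  have hs0 : 0 < s := by linarith only [hs]
  have h1 := h.y2 hs
  have h2 : q - p * (2 / s) = 2 * y / s := by
    rw [h.hy]
    field_simp
    ring
  have h3 : s * (2 / s) = 2 := by field_simp
  rw [h2, h3]
  have h4 : 0 ≤ v * (2 - 1 - e) / a :=
    div_nonneg (mul_nonneg (by linarith only [h.v1]) (by linarith only [hE.e1])) (by linarith only [ha])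
  have h5 : 1 ≤ 2 * y / s := by
    rw [le_div_iff₀ hs0]
    linarith only [h1]
  linarith only [h4, h5]

end even

end Pool.Agent.Helper37.DY
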