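import Pool.Agent.Helper9.DY.Sq
import Pool.Agent.Helper32.DY.Root

/-!
# The Chebyshev sequence: half indices, the closed form of the fan for a right angle at `d1, d2` (MP_d13a5e_al)
-/

set_option autoImplicit false

namespace Pool.Agent.Helper37.DY

open _root_.DY (sq sq_zero sq_one sq_two sq_succ sq_cassini sq_incr sq_mono)
open Pool.Agent.Helper32.DY (fe fw fw_two)

variable {b τ : ℝ}

/-- doubling -/
theorem sq_dbl (b : ℝ) (m : ℕ) : sq b (2 * m + 1) = sq b (m + 1) ^ 2 - sq b m ^ 2 ∧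
    sq b (2 * m + 2) = sq b (m + 1) * (sq b (m + 2) - sq b m) := by
  induction m with
  | zero => simp
  | succ m ih =>
    obtain ⟨h1, h2⟩ := ih
    have e1 : 2 * (m + 1) + 1 = 2 * m + 1 + 2 := by ring
    have e2 : 2 * (m + 1) + 2 = 2 * m + 2 + 2 := by ring
    have e3 : m + 1 + 1 = m + 2 := rfl
    have e4 : m + 1 + 2 = m + 3 := rfl
    have e5 : 2 * m + 1 + 1 = 2 * m + 2 := rfl
    have e6 : 2 * m + 2 + 1 = 2 * m + 1 + 2 := rfl
    have h3 := sq_succ b (2 * m + 1)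
    have h4 := sq_succ b (2 * m + 2)
    have h5 := sq_succ b m
    have h6 : sq b (m + 3) = 2 * b * sq b (m + 2) - sq b (m + 1) := sq_succ b (m + 1)
    rw [e5, h1, h2] at h3
    rw [e6, h3, h2] at h4
    rw [e1, e2, e3, e4, h3, h4, h6]
    rw [h5]
    constructor <;> ring

/-- the index `j = K + 2`: `τ = (s_(j-1) - 1) / s_j`, or `τ = b`, if `s_j = 0` -/
structure Jt (b τ : ℝ) (K : ℕ) : Prop where
  t1 : sq b (K + 1) - τ * sq b (K + 2) = 1
  t2 : sq b K - τ * sq b (K + 1) = τ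
  nn : 0 ≤ sq b (K + 2)
  ps : ∀ n, 1 ≤ n → n ≤ K + 1 → 1 ≤ sq b n

theorem Jt.even {m : ℕ} (h : Jt b τ (2 * m)) : τ * sq b (m + 1) = sq b m := by
  obtain ⟨h1, h2⟩ := sq_dbl b m
  have h3 := h.t1
  have h4 := h.t2
  have h5 := sq_cassini b m
  have h6 : sq b (2 * m + 2) = 2 * b * sq b (2 * m + 1) - sq b (2 * m) := sq_succ b (2 * m)
  have h7 := sq_succ b m
  rw [h1, h2] at h3
  have h8 : (sq b (m + 2) - sq b m) * (sq b m - τ * sq b (m + 1)) = 0 := by
    linear_combination h3 - h5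
  rcases mul_eq_zero.1 h8 with h9 | h9
  · have h10 : sq b (2 * m + 2) = 0 := by rw [h2, h9, mul_zero]
    have h11 : sq b (2 * m + 1) = 1 := by
      have := h.t1
      rw [h10, mul_zero, sub_zero] at this
      exact this
    rw [h10, h11] at h6
    rw [h11] at h4
    have h12 : τ = b := by linarith
    rw [h12]
    linarith
  · linarith

theorem Jt.odd {m : ℕ} (h : Jt b τ (2 * m + 1)) :
    τ * (sq b (m + 2) + sq b (m + 1)) = sq b (m + 1) + sq b m := by
  obtain ⟨h1, h2⟩ := sq_dbl b m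
  have h30 := (sq_dbl b (m + 1)).1
  have e1 : 2 * (m + 1) + 1 = 2 * m + 3 := by ring
  have e2 : m + 1 + 1 = m + 2 := rfl
  rw [e1, e2] at h30
  have h3 : sq b (2 * m + 2) - τ * sq b (2 * m + 3) = 1 := h.t1
  have h4 : sq b (2 * m + 1) - τ * sq b (2 * m + 2) = τ := h.t2
  have h5 := sq_cassini b m
  have h6 : sq b (2 * m + 3) = 2 * b * sq b (2 * m + 2) - sq b (2 * m + 1) := sq_succ b (2 * m + 1)
  have h7 := sq_succ b m
  have h8 : (sq b (m + 2) - sq b (m + 1)) *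
      (sq b (m + 1) + sq b m - τ * (sq b (m + 2) + sq b (m + 1))) = 0 := by
    have h9 : sq b (m + 1) * (sq b (m + 2) - sq b m) - τ * (sq b (m + 2) ^ 2 - sq b (m + 1) ^ 2) = 1 := by
      rw [← h2, ← h30]
      exact h3
    linear_combination h9 - h5
  rcases mul_eq_zero.1 h8 with h9 | h9
  · have h10 : sq b (2 * m + 3) = 0 := by
      rw [h30]
      have : sq b (m + 2) = sq b (m + 1) := by linarith
      rw [this]
      ring
    rw [h10, mul_zero, sub_zero] at h3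
    rw [h3] at h4 h6
    rw [h10] at h6
    have h12 : τ = b := by linarith
    rw [h12]
    have h13 : sq b (m + 2) = sq b (m + 1) := by linarith
    rw [h13] at h7 ⊢
    linarith
  · linarith

section bounds

theorem Jt.pos {K : ℕ} (h : Jt b τ K) {n : ℕ} (h1 : 1 ≤ n) (h2 : n ≤ K + 1) : 0 < sq b n := by
  linarith [h.ps n h1 h2]

theorem Jt.nonneg {K : ℕ} (h : Jt b τ K) {n : ℕ} (h2 : n ≤ K + 2) : 0 ≤ sq b n := by
  rcases Nat.eq_zero_or_pos n with h1 | h1
  · rw [h1, sq_zero]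
  · rcases Nat.lt_or_ge n (K + 2) with h3 | h3
    · exact (h.pos h1 (by omega)).le
    · have : n = K + 2 := by omega
      rw [this]
      exact h.nn

theorem Jt.even_lo {m : ℕ} (h : Jt b τ (2 * m)) (hm : 1 ≤ m) : 1 ≤ 2 * b * τ := by
  have h1 := h.even
  have hq := h.pos (n := m + 1) (by omega) (by omega)
  obtain ⟨n, rfl⟩ : ∃ n, m = n + 1 := ⟨m - 1, by omega⟩
  have h2 := h.nonneg (n := n) (by omega)
  have h3 := sq_succ b n
  have e1 : n + 1 + 1 = n + 2 := rfl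
  rw [e1] at hq h1
  have h4 : 1 * sq b (n + 2) ≤ 2 * b * τ * sq b (n + 2) := by
    have : 2 * b * τ * sq b (n + 2) = 2 * b * (τ * sq b (n + 2)) := by ring
    rw [this, h1]
    linarith
  exact le_of_mul_le_mul_right h4 hq

theorem Jt.even_hi {m : ℕ} (h : Jt b τ (2 * m)) (hm : 1 ≤ m) : τ ≤ b := by
  have h1 := h.even
  have hq := h.pos (n := m + 1) (by omega) (by omega)
  have h2 := (sq_dbl b m).2
  have h3 : 0 ≤ sq b (2 * m + 2) := h.nn
  have h4 := sq_succ b m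
  rw [h2] at h3
  have h5 : 0 ≤ sq b (m + 2) - sq b m := by
    by_contra hcon
    have := mul_neg_of_pos_of_neg hq (not_le.1 hcon)
    linarith
  have h6 : 2 * (τ * sq b (m + 1)) ≤ 2 * (b * sq b (m + 1)) := by
    rw [h1]
    linarith
  have h7 : τ * sq b (m + 1) ≤ b * sq b (m + 1) := by linarith
  exact le_of_mul_le_mul_right h7 hq

theorem Jt.even_hi2 {m : ℕ} (h : Jt b τ (2 * m)) (hm : 1 ≤ m) (hb : 1 ≤ b) : b * τ ≤ 1 := by
  have h1 := h.even
  have hq := h.pos (n := m + 1) (by omega) (by omega)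
  obtain ⟨n, rfl⟩ : ∃ n, m = n + 1 := ⟨m - 1, by omega⟩
  have h2 : sq b n ≤ sq b (n + 2) := sq_mono hb (by omega)
  have h3 := sq_succ b n
  have e1 : n + 1 + 1 = n + 2 := rfl
  rw [e1] at hq h1
  have h4 : b * τ * sq b (n + 2) ≤ 1 * sq b (n + 2) := by
    have : b * τ * sq b (n + 2) = b * (τ * sq b (n + 2)) := by ring
    rw [this, h1]
    linarith
  exact le_of_mul_le_mul_right h4 hq

theorem Jt.odd_lo {m : ℕ} (h : Jt b τ (2 * m + 1)) (hb : 0 ≤ b) : 1 ≤ (2 * b + 1) * τ := by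
  have h1 := h.odd
  have hq := h.pos (n := m + 1) (by omega) (by omega)
  have hr := h.nonneg (n := m + 2) (by omega)
  have hp := h.nonneg (n := m) (by omega)
  have h3 := sq_succ b m
  have h4 : 1 * (sq b (m + 2) + sq b (m + 1)) ≤ (2 * b + 1) * τ * (sq b (m + 2) + sq b (m + 1)) := by
    have : (2 * b + 1) * τ * (sq b (m + 2) + sq b (m + 1)) =
      (2 * b + 1) * (τ * (sq b (m + 2) + sq b (m + 1))) := by ring
    rw [this, h1]
    have h5 : 0 ≤ 2 * b * sq b m := mul_nonneg (by linarith) hp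
    linarith
  exact le_of_mul_le_mul_right h4 (by linarith)

theorem Jt.odd_lo5 {m : ℕ} (h : Jt b τ (2 * m + 1)) (hm : 1 ≤ m) (hb : 0 ≤ b) :
    2 * b + 1 ≤ ((2 * b) ^ 2 + 2 * b - 1) * τ := by
  have h1 := h.odd
  obtain ⟨n, rfl⟩ : ∃ n, m = n + 1 := ⟨m - 1, by omega⟩
  have e1 : n + 1 + 1 = n + 2 := rfl
  have e2 : n + 1 + 2 = n + 3 := rfl
  rw [e1, e2] at h1
  have hq := h.pos (n := n + 2) (by omega) (by omega)
  have hr := h.nonneg (n := n + 3) (by omega)
  have hp := h.nonneg (n := n) (by omega)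
  have h3 := sq_succ b n
  have h4 : sq b (n + 3) = 2 * b * sq b (n + 2) - sq b (n + 1) := sq_succ b (n + 1)
  have h5 : (2 * b + 1) * (sq b (n + 3) + sq b (n + 2)) ≤
      ((2 * b) ^ 2 + 2 * b - 1) * τ * (sq b (n + 3) + sq b (n + 2)) := by
    have : ((2 * b) ^ 2 + 2 * b - 1) * τ * (sq b (n + 3) + sq b (n + 2)) =
      ((2 * b) ^ 2 + 2 * b - 1) * (τ * (sq b (n + 3) + sq b (n + 2))) := by ring
    rw [this, h1, h4]
    have h6 : 0 ≤ (2 * b + 2) * (2 * b * sq b (n + 1) - sq b (n + 2)) := by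
      apply mul_nonneg (by linarith)
      linarith
    nlinarith
  exact le_of_mul_le_mul_right h5 (by linarith)

theorem Jt.odd_hi {m : ℕ} (h : Jt b τ (2 * m + 1)) (hb : 0 ≤ b) : τ ≤ b := by
  have h1 := h.odd
  have hq := h.pos (n := m + 1) (by omega) (by omega)
  have hr := h.nonneg (n := m + 2) (by omega)
  have h2 := (sq_dbl b (m + 1)).1
  have e1 : 2 * (m + 1) + 1 = 2 * m + 1 + 2 := by ring
  have e2 : m + 1 + 1 = m + 2 := rfl
  rw [e1, e2] at h2
  have h3 := h.nn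
  rw [h2] at h3
  have h4 := sq_succ b m
  have h5 : sq b (m + 1) ≤ sq b (m + 2) := by
    by_contra hcon
    rw [not_le] at hcon
    nlinarith
  have h6 : τ * (sq b (m + 2) + sq b (m + 1)) ≤ b * (sq b (m + 2) + sq b (m + 1)) := by
    rw [h1]
    have h7 : 0 ≤ (1 + b) * (sq b (m + 2) - sq b (m + 1)) := mul_nonneg (by linarith) (by linarith)
    nlinarith
  exact le_of_mul_le_mul_right h6 (by linarith)

theorem Jt.odd_hi2 {m : ℕ} (h : Jt b τ (2 * m + 1)) (hb : 1 ≤ b) : b * τ ≤ 1 := by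
  have h1 := h.odd
  have hq := h.pos (n := m + 1) (by omega) (by omega)
  have hr := h.nonneg (n := m + 2) (by omega)
  have h2 : sq b m ≤ sq b (m + 1) := sq_mono hb (by omega)
  have h4 := sq_succ b m
  have h6 : b * τ * (sq b (m + 2) + sq b (m + 1)) ≤ 1 * (sq b (m + 2) + sq b (m + 1)) := by
    have : b * τ * (sq b (m + 2) + sq b (m + 1)) = b * (τ * (sq b (m + 2) + sq b (m + 1))) := by ring
    rw [this, h1]
    have h7 : 0 ≤ (1 + b) * (sq b (m + 1) - sq b m) := mul_nonneg (by linarith) (by linarith)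
    nlinarith
  exact le_of_mul_le_mul_right h6 (by linarith)

end bounds

/-- closed form of the fan -/
theorem fe_closed (b1 b2 v y g : ℝ) (m : ℕ) :
    fe b1 b2 0 v y g (2 * m + 1) =
      sq b2 (2 * m + 1) * g - sq b2 (2 * m) * y + 2 * b1 * v * sq b2 m ^ 2 ∧
    fe b1 b2 0 v y g (2 * m + 2) =
      sq b2 (2 * m + 2) * g - sq b2 (2 * m + 1) * y + 2 * b1 * v * (sq b2 m * sq b2 (m + 1)) := by
  induction m with
  | zero =>
    constructor
    · show g = _
      simp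
    · show 2 * b2 * g + (2 * 0) * v - y = _
      simp only [mul_zero, zero_add, sq_zero, sq_one, sq_two]
      ring
  | succ m ih =>
    obtain ⟨h1, h2⟩ := ih
    have w1 : fw b1 0 (2 * m + 2) = 2 * b1 := by
      unfold fw
      rw [if_pos (by omega)]
    have w2 : fw b1 0 (2 * m + 3) = 0 := by
      unfold fw
      rw [if_neg (by omega), mul_zero]
    have e1 : fe b1 b2 0 v y g (2 * m + 3) = 2 * b2 * fe b1 b2 0 v y g (2 * m + 2) +
        fw b1 0 (2 * m + 2) * v - fe b1 b2 0 v y g (2 * m + 1) := rfl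
    have e2 : fe b1 b2 0 v y g (2 * m + 4) = 2 * b2 * fe b1 b2 0 v y g (2 * m + 3) +
        fw b1 0 (2 * m + 3) * v - fe b1 b2 0 v y g (2 * m + 2) := rfl
    have i1 : 2 * (m + 1) + 1 = 2 * m + 3 := by ring
    have i2 : 2 * (m + 1) + 2 = 2 * m + 4 := by ring
    have i3 : 2 * (m + 1) = 2 * m + 2 := by ring
    have i4 : m + 1 + 1 = m + 2 := rfl
    have s1 : sq b2 (2 * m + 3) = 2 * b2 * sq b2 (2 * m + 2) - sq b2 (2 * m + 1) := sq_succ b2 (2 * m + 1)
    have s2 : sq b2 (2 * m + 4) = 2 * b2 * sq b2 (2 * m + 3) - sq b2 (2 * m + 2) := sq_succ b2 (2 * m + 2)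
    have s3 := sq_succ b2 m
    have s4 : sq b2 (2 * m + 2) = 2 * b2 * sq b2 (2 * m + 1) - sq b2 (2 * m) := sq_succ b2 (2 * m)
    have s5 := sq_cassini b2 m
    rw [i1, i2, i3, i4]
    have r1 : fe b1 b2 0 v y g (2 * m + 3) = sq b2 (2 * m + 3) * g - sq b2 (2 * m + 2) * y +
        2 * b1 * v * sq b2 (m + 1) ^ 2 := by
      rw [e1, w1, h1, h2, s1]
      linear_combination y * s4 - 2 * b1 * v * s5 - 2 * b1 * v * sq b2 m * s3
    refine ⟨r1, ?_⟩
    rw [e2, w2, r1, h2, s2]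
    linear_combination y * s1 - 2 * b1 * v * sq b2 (m + 1) * s3

/-- the corner value in the chamber, `j = 2 m + 2` -/
theorem fe_even {b1 b2 v y g : ℝ} {m : ℕ} (h : Jt b2 τ (2 * m)) :
    fe b1 b2 0 v y g (2 * m + 1) - τ * fe b1 b2 0 v y g (2 * m + 2) = g - τ * y := by
  obtain ⟨h1, h2⟩ := fe_closed b1 b2 v y g m
  have h3 := h.even
  rw [h1, h2]
  linear_combination g * h.t1 - y * h.t2 - 2 * b1 * v * sq b2 m * h3

/-- the corner value in the chamber, `j = 2 m + 3` -/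
theorem fe_odd {b1 b2 v y g : ℝ} (hb : 0 ≤ b2) {m : ℕ} (h : Jt b2 τ (2 * m + 1)) :
    fe b1 b2 0 v y g (2 * m + 2) - τ * fe b1 b2 0 v y g (2 * m + 3) +
      2 * b1 * v * ((1 + τ) / (2 + 2 * b2)) = g - τ * y := by
  obtain ⟨-, h2⟩ := fe_closed b1 b2 v y g m
  have h1 := (fe_closed b1 b2 v y g (m + 1)).1
  have i1 : 2 * (m + 1) + 1 = 2 * m + 3 := by ring
  have i2 : 2 * (m + 1) = 2 * m + 2 := by ring
  rw [i1, i2] at h1
  have h3 := h.odd
  have h4 := sq_cassini b2 m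
  have h5 := sq_succ b2 m
  have hq := h.pos (n := m + 1) (by omega) (by omega)
  have hr := h.nonneg (n := m + 2) (by omega)
  have t1 : sq b2 (2 * m + 2) - τ * sq b2 (2 * m + 3) = 1 := h.t1
  have t2 : sq b2 (2 * m + 1) - τ * sq b2 (2 * m + 2) = τ := h.t2
  have key : (1 + τ) / (2 + 2 * b2) = sq b2 (m + 1) * (τ * sq b2 (m + 1) - sq b2 m) := by
    rw [div_eq_iff (by linarith)]
    have h6 : (1 + τ) * (sq b2 (m + 2) + sq b2 (m + 1)) =
        sq b2 (m + 1) * (τ * sq b2 (m + 1) - sq b2 m) * (2 + 2 * b2) * (sq b2 (m + 2) + sq b2 (m + 1)) := by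
      have h7 : (1 + τ) * (sq b2 (m + 2) + sq b2 (m + 1)) =
          sq b2 (m + 2) + sq b2 (m + 1) + (sq b2 (m + 1) + sq b2 m) := by
        linear_combination h3
      have h8 : sq b2 (m + 1) * (τ * sq b2 (m + 1) - sq b2 m) * (2 + 2 * b2) *
          (sq b2 (m + 2) + sq b2 (m + 1)) = sq b2 (m + 1) * (2 + 2 * b2) := by
        linear_combination (sq b2 (m + 1) ^ 2 * (2 + 2 * b2)) * h3 + (sq b2 (m + 1) * (2 + 2 * b2)) * h4
      rw [h7, h8, h5]
      ring
    exact mul_right_cancel₀ (by linarith) h6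
  rw [key, h1, h2]
  linear_combination g * t1 - y * t2

end Pool.Agent.Helper37.DY
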